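import Mathlib
import Pool.Agent.TH165.ACC.BddGeo
import Pool.Agent.TH165.LSC.Nu
import Pool.Agent.TH165.LSC.P3

/-!
# Linear algebra for simplicial toric germs
-/

set_option autoImplicit false
set_option linter.unusedSectionVars false

namespace Pool.Agent.TH165.IDX

open Pool.Agent.H436R3.Fol Pool.Agent.H436R3.KT Pool.Agent.W497.Mld Pool.Agent.TH165.ACC
  Pool.Agent.TH165.LSC MvPolynomial

variable {n d : ℕ}

theorem mF_one_iff (m : Fin d → ℤ) (w : Fin d → ℝ) :
    UnitAddTorus.mFourier m (fun i => (w i : UnitAddCircle)) = 1 ↔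
      ∃ z : ℤ, ∑ i, (m i : ℝ) * w i = z := by
  have h1 : UnitAddTorus.mFourier m (fun i => (w i : UnitAddCircle)) =
      Complex.exp ((∑ i, (m i : ℝ) * w i : ℝ) * (2 * Real.pi * Complex.I)) := by
    simp only [UnitAddTorus.mFourier, ContinuousMap.coe_mk]
    push_cast
    rw [Finset.sum_mul, Complex.exp_sum]
    refine Finset.prod_congr rfl fun i _ => ?_
    rw [fourier_coe_apply]
    congr 1
    push_cast
    ring
  rw [h1, Complex.exp_eq_one_iff]
  have h2 : (2 * (Real.pi : ℂ) * Complex.I) ≠ 0 := by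
    simp [Real.pi_ne_zero]
  constructor
  · rintro ⟨z, hz⟩
    refine ⟨z, ?_⟩
    have h3 := mul_right_cancel₀ h2 hz
    exact_mod_cast h3
  · rintro ⟨z, hz⟩
    refine ⟨z, ?_⟩
    rw [hz]
    push_cast
    ring

theorem mem_dualG_GE {A : Fin d → Fin n → ℤ} {m : Fin d → ℤ} :
    m ∈ dualG (GE A) ↔ ∀ (w : Fin d → ℝ) (u : Fin n → ℤ), Coord A w u →
      ∃ z : ℤ, ∑ i, (m i : ℝ) * w i = z := by
  constructor
  · intro h w u hwu
    exact (mF_one_iff m w).1 (h _ ⟨w, u, rfl, hwu⟩)
  · rintro h _ ⟨w, u, rfl, hwu⟩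
    exact (mF_one_iff m w).2 (h w u hwu)

theorem pr_mem_dualG {A : Fin d → Fin n → ℤ} (δ : Fin n → ℤ) :
    (fun i => pr δ (A i)) ∈ dualG (GE A) := by
  rw [mem_dualG_GE]
  intro w u h
  refine ⟨pr δ u, ?_⟩
  rw [coord_pr h]
  exact Finset.sum_congr rfl fun i _ => mul_comm _ _

variable {K : Type} [Field K] [Algebra ℂ K]
  [Algebra (MvPolynomial (Fin n) ℂ) K] [IsFractionRing (MvPolynomial (Fin n) ℂ) K]
  [IsScalarTower ℂ (MvPolynomial (Fin n) ℂ) K]

theorem indep_E {g : ToricGerm n K} {D : ℤ} {Q : Fin g.N → Fin n → ℤ} (hD : 0 < D)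
    (hQ : ∀ i j, pr (Q i) (g.E j) = if j = i then D else 0) : LinearIndependent ℤ g.E := by
  rw [Fintype.linearIndependent_iff]
  intro c hc i
  have h1 : pr (Q i) (∑ j, c j • g.E j) = c i * D := by
    rw [pr_sum_right, Finset.sum_eq_single i]
    · rw [pr_smul_right, hQ, if_pos rfl]
    · intro j _ hj
      rw [pr_smul_right, hQ, if_neg hj, mul_zero]
    · intro h; exact absurd (Finset.mem_univ _) h
  rw [hc] at h1
  have h2 : pr (Q i) 0 = 0 := by simp [pr]
  rw [h2] at h1
  exact (mul_eq_zero.1 h1.symm).resolve_right hD.ne'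

/-- in the simplicial case the coordinates are given by the dual vectors -/
theorem simp_coord {g : ToricGerm n K} {D : ℤ} {Q : Fin g.N → Fin n → ℤ} (hD : 0 < D)
    (hQ : ∀ i j, pr (Q i) (g.E j) = if j = i then D else 0) (u : Fin n → ℤ) :
    Coord g.E (fun i => (pr (Q i) u : ℝ) / D) u := by
  classical
  have hli := indep_E hD hQ
  have hnN : n ≤ g.N := by
    let T : (Fin n → ℤ) →ₗ[ℤ] (Fin g.N → ℤ) :=
      { toFun := fun m i => pr m (g.E i)
        map_add' := fun a b => by funext i; exact pr_add _ _ _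
        map_smul' := fun k a => by funext i; exact pr_smul _ _ _ }
    have hT : Function.Injective T := by
      rw [injective_iff_map_eq_zero]
      intro m hm
      exact g.full m fun i => congrFun hm i
    have := LinearMap.finrank_le_finrank_of_injective hT
    simpa using this
  set x : Fin n → ℤ := D • u - ∑ i, pr (Q i) u • g.E i with hx
  have hQx : ∀ j, pr (Q j) x = 0 := by
    intro j
    have h1 : pr (Q j) x = pr (Q j) (D • u) - pr (Q j) (∑ i, pr (Q i) u • g.E i) := by
      simp only [pr, hx, Pi.sub_apply, mul_sub, Finset.sum_sub_distrib]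
    rw [h1, pr_smul_right, pr_sum_right, Finset.sum_eq_single j]
    · rw [pr_smul_right, hQ, if_pos rfl]
      ring
    · intro i _ hi
      rw [pr_smul_right, hQ, if_neg hi, mul_zero]
    · intro h; exact absurd (Finset.mem_univ _) h
  have hdep : ¬ LinearIndependent ℤ (fun o : Option (Fin g.N) => o.elim x g.E) := by
    intro h
    have := h.fintype_card_le_finrank
    simp only [Fintype.card_option, Fintype.card_fin, Module.finrank_fintype_fun_eq_card] at this
    omega
  obtain ⟨k, a, hk, hka⟩ := Rays.exists_smul_mem hli hdep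
  have ha : ∀ j, a j = 0 := by
    intro j
    have h1 : pr (Q j) (k • x) = a j * D := by
      rw [hka, pr_sum_right, Finset.sum_eq_single j]
      · rw [pr_smul_right, hQ, if_pos rfl]
      · intro i _ hi
        rw [pr_smul_right, hQ, if_neg hi, mul_zero]
      · intro h; exact absurd (Finset.mem_univ _) h
    rw [pr_smul_right, hQx, mul_zero] at h1
    exact (mul_eq_zero.1 h1.symm).resolve_right hD.ne'
  have hx0 : x = 0 := by
    have h1 : k • x = 0 := by
      rw [hka]
      exact Finset.sum_eq_zero fun i _ => by rw [ha i, zero_smul]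
    exact (smul_eq_zero.1 h1).resolve_left hk
  intro l
  have h1 := congrFun hx0 l
  simp only [hx, Pi.sub_apply, Pi.smul_apply, smul_eq_mul, Finset.sum_apply, Pi.zero_apply] at h1
  have h2 : (D : ℝ) * (u l : ℝ) = ∑ i, (pr (Q i) u : ℝ) * (g.E i l : ℝ) := by
    have : D * u l = ∑ i, pr (Q i) u * g.E i l := by linarith
    exact_mod_cast this
  have hD' : (D : ℝ) ≠ 0 := by exact_mod_cast hD.ne'
  have h3 : ∑ i, (pr (Q i) u : ℝ) / D * (g.E i l : ℝ) =
      (∑ i, (pr (Q i) u : ℝ) * (g.E i l : ℝ)) / D := by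
    rw [Finset.sum_div]
    exact Finset.sum_congr rfl fun i _ => by ring
  rw [h3, ← h2]
  field_simp

/-- interior lattice points have positive coordinates -/
theorem simp_pos {g : ToricGerm n K} {D : ℤ} {Q : Fin g.N → Fin n → ℤ} (hD : 0 < D)
    (hQ : ∀ i j, pr (Q i) (g.E j) = if j = i then D else 0) {u : Fin n → ℤ} (hu : g.Inter u)
    (i : Fin g.N) : 0 < (pr (Q i) u : ℝ) / D := by
  have h1 : Q i ∈ Cn g.E := fun j => by
    rw [hQ]
    split_ifs
    · exact hD.le
    · exact le_rfl
  have h2 : Q i ≠ 0 := by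
    intro h
    have := hQ i i
    rw [h, if_pos rfl, pr_zero] at this
    exact hD.ne this
  have h3 := hu _ h1 h2
  exact div_pos (by exact_mod_cast h3) (by exact_mod_cast hD)

theorem simp_nonneg {g : ToricGerm n K} {D : ℤ} {Q : Fin g.N → Fin n → ℤ} (hD : 0 < D)
    (hQ : ∀ i j, pr (Q i) (g.E j) = if j = i then D else 0) {u : Fin n → ℤ} (hu : g.InCone u)
    (i : Fin g.N) : 0 ≤ pr (Q i) u := by
  refine hu _ fun j => ?_
  rw [hQ]
  split_ifs
  · exact hD.le
  · exact le_rfl

theorem nu_smul (u : Fin n → ℤ) {k : ℤ} (hk : 0 ≤ k) {p : MvPolynomial (Fin n) ℂ} (hp : p ≠ 0) :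
    nu (k • u) p = k * nu u p := by
  obtain ⟨s, hs, h⟩ := nu_mem u hp
  rw [nu_eq hs, pr_smul_right, h]
  intro t ht
  rw [pr_smul_right, pr_smul_right, ← h]
  exact mul_le_mul_of_nonneg_left (nu_le u ht) hk

/-- linearity of the orders of prime divisors which do not pass through `P` or do not meet the
torus -/
theorem nu_lin {g : ToricGerm n K} {p : MvPolynomial (Fin n) ℂ} (hp : Prime p) (h : ¬ Thr g p)
    (z : Fin g.N → ℕ) : nu (∑ i, (z i : ℤ) • g.E i) p = ∑ i, (z i : ℤ) * nu (g.E i) p := by
  classical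
  obtain ⟨-, h2⟩ := not_thr (K := K) hp h
  have h0 : nu (0 : Fin n → ℤ) p = 0 := by
    obtain ⟨s, -, h⟩ := nu_mem (0 : Fin n → ℤ) hp.ne_zero
    rw [h]
    simp [pr]
  have key : ∀ (k : ℕ) (z : Fin g.N → ℕ), ∑ i, z i = k →
      nu (∑ i, (z i : ℤ) • g.E i) p = ∑ i, (z i : ℤ) * nu (g.E i) p := by
    intro k
    induction k with
    | zero =>
      intro z hz
      have : ∀ i, z i = 0 := fun i => by
        have := Finset.sum_eq_zero_iff.1 hz i (Finset.mem_univ i)
        exact this
      simp [this, h0]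
    | succ k ih =>
      intro z hz
      obtain ⟨i0, hi0⟩ : ∃ i0, z i0 ≠ 0 := by
        by_contra hcon
        push Not at hcon
        rw [Finset.sum_eq_zero fun i _ => hcon i] at hz
        omega
      let z' : Fin g.N → ℕ := fun i => if i = i0 then z i - 1 else z i
      have hzz : ∀ i, z i = z' i + if i = i0 then 1 else 0 := by
        intro i
        simp only [z']
        split_ifs with h
        · subst h; omega
        · rfl
      have hsum : ∑ i, z' i = k := by
        have : ∑ i, z i = ∑ i, z' i + 1 := by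
          rw [Finset.sum_congr rfl fun i _ => hzz i, Finset.sum_add_distrib]
          simp
        omega
      have hin : g.InCone (∑ i, (z' i : ℤ) • g.E i) := by
        intro m hm
        rw [pr_sum_right]
        refine Finset.sum_nonneg fun i _ => ?_
        rw [pr_smul_right]
        exact mul_nonneg (Int.natCast_nonneg _) (hm i)
      have e1 : ∑ i, (z i : ℤ) • g.E i = ∑ i, (z' i : ℤ) • g.E i + ∑ i ∈ {i0}, g.E i := by
        rw [Finset.sum_singleton, Finset.sum_congr rfl fun i _ => by rw [hzz i]]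
        push_cast
        simp only [add_smul, Finset.sum_add_distrib]
        congr 1
        rw [Finset.sum_eq_single i0]
        · simp
        · intro j _ hj; simp [hj]
        · intro h; exact absurd (Finset.mem_univ _) h
      have e2 : ∑ i, (z i : ℤ) * nu (g.E i) p = ∑ i, (z' i : ℤ) * nu (g.E i) p +
          nu (g.E i0) p := by
        have e3 : ∀ i, (z i : ℤ) * nu (g.E i) p = (z' i : ℤ) * nu (g.E i) p +
            if i = i0 then nu (g.E i) p else 0 := by
          intro i
          rw [hzz i]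
          push_cast
          split_ifs <;> ring
        rw [Finset.sum_congr rfl fun i _ => e3 i, Finset.sum_add_distrib]
        congr 1
        rw [Finset.sum_ite_eq' Finset.univ i0, if_pos (Finset.mem_univ _)]
      rw [e1, h2 _ {i0} hin, ih z' hsum, Finset.sum_singleton, e2]
  exact key _ z rfl

end Pool.Agent.TH165.IDX
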