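import Mathlib
import Pool.Agent.TH165.IDX.Lin

/-!
# Cartier indices on simplicial toric germs
-/

set_option autoImplicit false
set_option linter.unusedSectionVars false

namespace Pool.Agent.TH165.IDX

open Pool.Agent.H436R3.Fol Pool.Agent.H436R3.KT Pool.Agent.W497.Mld Pool.Agent.TH165.ACC
  Pool.Agent.TH165.LSC MvPolynomial

variable {n d : ℕ} {K : Type} [Field K] [Algebra ℂ K]

/-- The `ℝ`-divisor `I (K_X + B)` is an integral Cartier divisor near the closed point `P`: there is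
a rational function `f` such that `I (K_X + B)` and `div f` have the same multiplicity at all prime
divisors through `P`. -/
def CartierAt {X : AffVar K} (B : EffDiv X) (P : Pt X) (I : ℕ) : Prop :=
  ∃ f : K, f ≠ 0 ∧ ∀ v, OnAt P v → ∃ N : ℤ, IsCanOrd X.T v N ∧
    (I : ℝ) * ((N : ℝ) + B.mult v) = (v.ord f : ℝ)

theorem CartierAt.mul {X : AffVar K} {B : EffDiv X} {P : Pt X} {I : ℕ} (h : CartierAt B P I)
    (k : ℕ) : CartierAt B P (k * I) := by
  obtain ⟨f, hf, h1⟩ := h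
  refine ⟨f ^ k, pow_ne_zero _ hf, fun v hv => ?_⟩
  obtain ⟨N, hN, h2⟩ := h1 v hv
  refine ⟨N, hN, ?_⟩
  have h3 : v.ord (f ^ k) = k * v.ord f := by
    have := v.ord_zpow hf (k : ℤ)
    rwa [zpow_natCast] at this
  rw [h3]
  push_cast
  rw [mul_assoc, h2]

variable [Algebra (MvPolynomial (Fin n) ℂ) K] [IsFractionRing (MvPolynomial (Fin n) ℂ) K]
  [IsScalarTower ℂ (MvPolynomial (Fin n) ℂ) K]

open Classical in
theorem index_step {g : ToricGerm n K} {B : EffDiv g.X} (e : LocEq B g.P)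
    {F : Finset (MvPolynomial (Fin n) ℂ)} {c : MvPolynomial (Fin n) ℂ → ℝ}
    (hFp : ∀ p ∈ F, Prime p)
    (hc : ∀ v : DVal K, ∑ k, e.ρ k * (v.ord (e.g k) : ℝ) =
      ∑ p ∈ F, c p * (v.ord (jo (Fin n) K p) : ℝ))
    {D : ℤ} {Q : Fin g.N → Fin n → ℤ} (hD : 0 < D)
    (hQ : ∀ i j, pr (Q i) (g.E j) = if j = i then D else 0) {I0 I : ℕ}
    (b : MvPolynomial (Fin n) ℂ → ℤ) (hb : ∀ p ∈ F, Thr g p → (I0 : ℝ) * c p = b p)
    (t : MvPolynomial (Fin n) ℂ → Fin n → ℤ) (κ : Fin g.N → ℤ)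
    (hκ : ∀ i, (κ i : ℝ) = I0 * (-∑ p ∈ F with ¬ Thr g p, c p * (nu (g.E i) p : ℝ) -
      ∑ p ∈ F with Thr g p, c p * (pr (t p) (g.E i) : ℝ)))
    (hdual : (fun i => (I : ℤ) * κ i) ∈ dualG (GE g.E)) : CartierAt B g.P (I * I0) := by
  have hD' : (D : ℝ) ≠ 0 := by exact_mod_cast hD.ne'
  have hM : ∀ l : Fin n, ∃ z : ℤ, ∑ i, (((I : ℤ) * κ i : ℤ) : ℝ) *
      ((pr (Q i) (Pi.single l 1) : ℝ) / D) = z := fun l =>
    mem_dualG_GE.1 hdual _ _ (simp_coord hD hQ (Pi.single l 1))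
  choose M1 hM1 using hM
  have hM1u : ∀ u : Fin n → ℤ, ∑ i, (((I : ℤ) * κ i : ℤ) : ℝ) * ((pr (Q i) u : ℝ) / D) =
      pr M1 u := by
    intro u
    have h1 : ∀ i, (pr (Q i) u : ℝ) = ∑ l, (u l : ℝ) * (pr (Q i) (Pi.single l 1) : ℝ) := by
      intro i
      have h2 : ∀ l, pr (Q i) (Pi.single l 1) = Q i l := by
        intro l
        rw [pr, Finset.sum_eq_single l]
        · rw [Pi.single_eq_same, mul_one]
        · intro j _ hj; rw [Pi.single_eq_of_ne hj, mul_zero]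
        · intro h; exact absurd (Finset.mem_univ _) h
      have h3 : pr (Q i) u = ∑ l, u l * pr (Q i) (Pi.single l 1) := by
        rw [pr]
        exact Finset.sum_congr rfl fun l _ => by rw [h2, mul_comm]
      exact_mod_cast h3
    have h2 : (pr M1 u : ℝ) = ∑ l, (M1 l : ℝ) * (u l : ℝ) := by
      rw [pr]; push_cast; rfl
    have h3 : (pr M1 u : ℝ) = ∑ l : Fin n, (∑ i, (((I : ℤ) * κ i : ℤ) : ℝ) *
        ((pr (Q i) (Pi.single l 1) : ℝ) / D)) * (u l : ℝ) := by
      rw [h2]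
      exact Finset.sum_congr rfl fun l _ => by rw [hM1 l]
    rw [h3]
    simp only [h1, Finset.sum_div, Finset.mul_sum, Finset.sum_mul]
    rw [Finset.sum_comm]
    exact Finset.sum_congr rfl fun i _ => Finset.sum_congr rfl fun l _ => by ring
  set M : Fin n → ℤ := -M1 - (I : ℤ) • ∑ p ∈ F with Thr g p, b p • t p with hMdef
  have hprM : ∀ u, pr M u = -pr M1 u - I * ∑ p ∈ F with Thr g p, b p * pr (t p) u := by
    intro u
    have h1 : ∀ (S : Finset (MvPolynomial (Fin n) ℂ)), pr (∑ p ∈ S, b p • t p) u =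
        ∑ p ∈ S, b p * pr (t p) u := by
      intro S
      induction S using Finset.induction_on with
      | empty => rw [Finset.sum_empty, Finset.sum_empty, pr_zero]
      | insert x S hx ih => rw [Finset.sum_insert hx, Finset.sum_insert hx, pr_add, pr_smul, ih]
    rw [hMdef, pr_sub, pr_neg, pr_smul, h1]
  refine ⟨(∏ p ∈ F with Thr g p, jo (Fin n) K p ^ ((I : ℤ) * b p)) * ym K M, ?_, fun v hv => ?_⟩
  · refine mul_ne_zero (Finset.prod_ne_zero_iff.2 fun p hp => zpow_ne_zero _ ?_) (ym_ne _)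
    exact jo_ne (hFp p (Finset.mem_filter.1 hp).1).ne_zero
  · obtain ⟨N, hN, h1⟩ := e.eq v hv
    refine ⟨N, hN, ?_⟩
    have hov : OverAt g.P v := ⟨⟨g.X.R, g.X.fg, le_rfl, hv.1⟩, hv.2⟩
    have hcone := inCone_over hov
    set u : Fin n → ℤ := tv v with hu
    have hne : ∀ p ∈ F.filter fun p => Thr g p, jo (Fin n) K p ^ ((I : ℤ) * b p) ≠ 0 :=
      fun p hp => zpow_ne_zero _ (jo_ne (hFp p (Finset.mem_filter.1 hp).1).ne_zero)
    have hprod : (∏ p ∈ F with Thr g p, jo (Fin n) K p ^ ((I : ℤ) * b p)) ≠ 0 :=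
      Finset.prod_ne_zero_iff.2 hne
    have hordf : v.ord ((∏ p ∈ F with Thr g p, jo (Fin n) K p ^ ((I : ℤ) * b p)) * ym K M) =
        ∑ p ∈ F with Thr g p, (I : ℤ) * b p * v.ord (jo (Fin n) K p) + pr M u := by
      rw [v.map_mul _ _ hprod (ym_ne _), v.ord_prod _ _ hne, ord_ym]
      congr 1
      refine Finset.sum_congr rfl fun p hp => ?_
      rw [v.ord_zpow (jo_ne (hFp p (Finset.mem_filter.1 hp).1).ne_zero)]
    have hDu : D • u = ∑ i, ((pr (Q i) u).toNat : ℤ) • g.E i := by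
      have h2 := simp_coord hD hQ u
      have h3 : ∀ i, ((pr (Q i) u).toNat : ℤ) = pr (Q i) u := fun i =>
        Int.toNat_of_nonneg (simp_nonneg hD hQ hcone i)
      funext l
      have h4 := h2 l
      rw [Finset.sum_apply, Pi.smul_apply, smul_eq_mul]
      simp only [Pi.smul_apply, smul_eq_mul, h3]
      have h5 : (D : ℝ) * (u l : ℝ) = ∑ i, (pr (Q i) u : ℝ) * (g.E i l : ℝ) := by
        rw [← h4, Finset.mul_sum]
        refine Finset.sum_congr rfl fun i _ => ?_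
        field_simp
      exact_mod_cast h5
    have hlin : ∀ p ∈ F, ¬ Thr g p → (v.ord (jo (Fin n) K p) : ℝ) =
        ∑ i, (pr (Q i) u : ℝ) / D * (nu (g.E i) p : ℝ) := by
      intro p hp hT
      have h2 := (not_thr (hFp p hp) hT).1 v hov
      have h3 := nu_lin (hFp p hp) hT fun i => (pr (Q i) u).toNat
      rw [← hDu, nu_smul u hD.le (hFp p hp).ne_zero] at h3
      have h4 : D * nu u p = ∑ i, pr (Q i) u * nu (g.E i) p := by
        rw [h3]
        exact Finset.sum_congr rfl fun i _ => by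
          rw [Int.toNat_of_nonneg (simp_nonneg hD hQ hcone i)]
      have h5 : (D : ℝ) * (nu u p : ℝ) = ∑ i, (pr (Q i) u : ℝ) * (nu (g.E i) p : ℝ) := by
        exact_mod_cast h4
      rw [h2, ← hu]
      have h6 : ∑ i, (pr (Q i) u : ℝ) / D * (nu (g.E i) p : ℝ) =
          (∑ i, (pr (Q i) u : ℝ) * (nu (g.E i) p : ℝ)) / D := by
        rw [Finset.sum_div]
        exact Finset.sum_congr rfl fun i _ => by ring
      rw [h6, ← h5]
      field_simp
    have hN1 : (N : ℝ) + B.mult v = ∑ p ∈ F with Thr g p, c p * (v.ord (jo (Fin n) K p) : ℝ) +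
        ∑ i, (pr (Q i) u : ℝ) / D * ∑ p ∈ F with ¬ Thr g p, c p * (nu (g.E i) p : ℝ) := by
      rw [h1, hc, ← Finset.sum_filter_add_sum_filter_not F (fun p => Thr g p)]
      congr 1
      simp only [Finset.mul_sum]
      rw [Finset.sum_comm]
      refine Finset.sum_congr rfl fun p hp => ?_
      obtain ⟨hpF, hpT⟩ := Finset.mem_filter.1 hp
      rw [hlin p hpF hpT, Finset.mul_sum]
      exact Finset.sum_congr rfl fun i _ => by ring
    have hthr : (I0 : ℝ) * ∑ p ∈ F with Thr g p, c p * (v.ord (jo (Fin n) K p) : ℝ) =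
        ∑ p ∈ F with Thr g p, (b p : ℝ) * (v.ord (jo (Fin n) K p) : ℝ) := by
      rw [Finset.mul_sum]
      refine Finset.sum_congr rfl fun p hp => ?_
      obtain ⟨hpF, hpT⟩ := Finset.mem_filter.1 hp
      rw [← hb p hpF hpT]
      ring
    have hE : ∀ i, (I0 : ℝ) * ∑ p ∈ F with ¬ Thr g p, c p * (nu (g.E i) p : ℝ) =
        -(κ i : ℝ) - ∑ p ∈ F with Thr g p, (b p : ℝ) * (pr (t p) (g.E i) : ℝ) := by
      intro i
      have h2 : ∑ p ∈ F with Thr g p, (b p : ℝ) * (pr (t p) (g.E i) : ℝ) =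
          (I0 : ℝ) * ∑ p ∈ F with Thr g p, c p * (pr (t p) (g.E i) : ℝ) := by
        rw [Finset.mul_sum]
        refine Finset.sum_congr rfl fun p hp => ?_
        obtain ⟨hpF, hpT⟩ := Finset.mem_filter.1 hp
        rw [← hb p hpF hpT]
        ring
      rw [h2, hκ i]
      ring
    have htp : ∀ p, (pr (t p) u : ℝ) = ∑ i, (pr (Q i) u : ℝ) / D * (pr (t p) (g.E i) : ℝ) :=
      fun p => coord_pr (simp_coord hD hQ u) (t p)
    have hfin : (I : ℝ) * ∑ i, (pr (Q i) u : ℝ) / D *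
        ((I0 : ℝ) * ∑ p ∈ F with ¬ Thr g p, c p * (nu (g.E i) p : ℝ)) = pr M u := by
      have h2 := hM1u u
      have h3 : ((pr M u : ℤ) : ℝ) = -(pr M1 u : ℝ) -
          I * ∑ p ∈ F with Thr g p, (b p : ℝ) * (pr (t p) u : ℝ) := by
        rw [hprM u]; push_cast; ring
      rw [h3, ← h2]
      simp only [htp, hE]
      push_cast
      simp only [mul_sub, Finset.sum_sub_distrib, Finset.mul_sum, mul_neg, Finset.sum_neg_distrib]
      congr 1
      · congr 1
        exact Finset.sum_congr rfl fun i _ => by ring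
      · rw [Finset.sum_comm]
        exact Finset.sum_congr rfl fun p _ => Finset.sum_congr rfl fun i _ => by ring
    rw [hN1, hordf]
    push_cast
    rw [← hfin]
    have h7 : ∑ i, (pr (Q i) u : ℝ) / D *
        ((I0 : ℝ) * ∑ p ∈ F with ¬ Thr g p, c p * (nu (g.E i) p : ℝ)) =
        (I0 : ℝ) * ∑ i, (pr (Q i) u : ℝ) / D * ∑ p ∈ F with ¬ Thr g p, c p * (nu (g.E i) p : ℝ) := by
      rw [Finset.mul_sum]
      exact Finset.sum_congr rfl fun i _ => by ring
    have h8 : ∑ p ∈ F with Thr g p, (I : ℝ) * (b p : ℝ) * (v.ord (jo (Fin n) K p) : ℝ) =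
        (I : ℝ) * ∑ p ∈ F with Thr g p, (b p : ℝ) * (v.ord (jo (Fin n) K p) : ℝ) := by
      rw [Finset.mul_sum]
      exact Finset.sum_congr rfl fun p _ => by ring
    rw [h7, h8, ← hthr]
    ring

end Pool.Agent.TH165.IDX
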