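import Mathlib
import Pool.Agent.TH165.IDX.Lin
import Pool.Agent.TH165.ACC.Real

/-!
# Selection of finitely many rays of an arbitrary cone
-/

set_option autoImplicit false
set_option linter.unusedSectionVars false

namespace Pool.Agent.TH165.IDX

open Pool.Agent.H436R3.Fol Pool.Agent.H436R3.KT Pool.Agent.W497.Mld Pool.Agent.TH165.ACC
  Pool.Agent.TH165.LSC MvPolynomial

variable {n : ℕ} {K : Type} [Field K] [Algebra ℂ K]
  [Algebra (MvPolynomial (Fin n) ℂ) K] [IsFractionRing (MvPolynomial (Fin n) ℂ) K]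
  [IsScalarTower ℂ (MvPolynomial (Fin n) ℂ) K]

/-- interior vectors absorb all vectors -/
theorem absorb {g : ToricGerm n K} {u : Fin n → ℤ} (hu : g.Inter u) (x : Fin n → ℤ) :
    ∃ k : ℕ, 0 < k ∧ g.InCone ((k : ℤ) • u + x) := by
  classical
  obtain ⟨S, hS, hSC, hgen⟩ := gordan g.full
  obtain ⟨M, hM⟩ := (hS.toFinset.image fun m => -pr m x).exists_le
  refine ⟨M.toNat + 1, Nat.succ_pos _, fun m hm => ?_⟩
  have hgen' := hgen m hm
  induction hgen' using AddSubmonoid.closure_induction with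
  | mem m hmS =>
    have h1 : -pr m x ≤ M := hM _ (Finset.mem_image.2 ⟨m, hS.mem_toFinset.2 hmS, rfl⟩)
    rw [pr_add_right, pr_smul_right]
    by_cases h0 : m = 0
    · rw [h0, pr_zero, pr_zero]; simp
    · have h2 := hu m (hSC hmS) h0
      have h3 : M ≤ M.toNat := Int.self_le_toNat M
      push_cast
      nlinarith
  | zero => rw [pr_zero]
  | add a b ha hb iha ihb =>
    rw [pr_add]
    have hCn : ∀ y ∈ AddSubmonoid.closure S, y ∈ Cn g.E := by
      intro y hy
      induction hy using AddSubmonoid.closure_induction with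
      | mem y hy => exact hSC hy
      | zero => exact Cn_zero
      | add y z _ _ h1 h2 => exact Cn_add h1 h2
    exact add_nonneg (iha (hCn a ha)) (ihb (hCn b hb))

/-- integral form of Caratheodory's theorem -/
theorem simp_int {g : ToricGerm n K} {x : Fin n → ℤ} (hx : g.InCone x) :
    ∃ (d : ℕ) (a : Fin d → Fin g.N) (D : ℕ) (z : Fin d → ℕ), d ≤ n ∧ 0 < D ∧ (∀ i, 0 < z i) ∧
      (D : ℤ) • x = ∑ i, (z i : ℤ) • g.E (a i) := by
  obtain ⟨d, a, w, hw, hc, D, hD⟩ := exists_simplex hx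
  obtain ⟨hD0, hDQ⟩ := id hD
  choose Q hQ using hDQ
  have hD0' : (0 : ℝ) < D := by exact_mod_cast hD0
  have hw' : ∀ i, (pr (Q i) x : ℝ) = w i * D := by
    intro i
    rw [coord_pr (A := fun i => g.E (a i)) hc, Finset.sum_eq_single i]
    · rw [hQ, if_pos rfl]
    · intro j _ hj
      rw [hQ, if_neg hj, Int.cast_zero, mul_zero]
    · intro h; exact absurd (Finset.mem_univ _) h
  have hpos : ∀ i, 0 < pr (Q i) x := by
    intro i
    have : (0 : ℝ) < pr (Q i) x := by rw [hw']; exact mul_pos (hw i) hD0'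
    exact_mod_cast this
  have hz : ∀ i, ((pr (Q i) x).toNat : ℤ) = pr (Q i) x := fun i =>
    Int.toNat_of_nonneg (hpos i).le
  have hDz : (D.toNat : ℤ) = D := Int.toNat_of_nonneg hD0.le
  refine ⟨d, a, D.toNat, fun i => (pr (Q i) x).toNat, hD.le, by omega, fun i => ?_, ?_⟩
  · have := hpos i
    change 0 < (pr (Q i) x).toNat
    omega
  · funext l
    rw [Finset.sum_apply, hDz, Pi.smul_apply, smul_eq_mul]
    simp only [Pi.smul_apply, smul_eq_mul, hz]
    have h1 : (D : ℝ) * (x l : ℝ) = ∑ i, (pr (Q i) x : ℝ) * (g.E (a i) l : ℝ) := by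
      rw [← hc l, Finset.mul_sum]
      refine Finset.sum_congr rfl fun i _ => ?_
      rw [hw']
      ring
    exact_mod_cast h1

/-- Boundedly many rays which generate the space, and such that `u` is a positive combination. -/
theorem exists_family {g : ToricGerm n K} {u : Fin n → ℤ} (hu : g.Inter u) :
    ∃ (s : ℕ) (a : Fin s → Fin g.N) (D : ℕ) (z : Fin s → ℕ), s ≤ n * n + n ∧ 0 < D ∧
      (∀ i, 0 < z i) ∧ (D : ℤ) • u = ∑ i, (z i : ℤ) • g.E (a i) ∧
      ∀ l : Fin n, ∃ (D' : ℕ) (y : Fin s → ℤ), 0 < D' ∧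
        (D' : ℤ) • (Pi.single l 1 : Fin n → ℤ) = ∑ i, y i • g.E (a i) := by
  classical
  choose k hk hkc using fun l : Fin n => absorb hu (Pi.single l 1)
  choose d a D z hdn hD hz hDz using fun l : Fin n => simp_int (hkc l)
  obtain ⟨k', hk', hkc'⟩ := absorb hu (-∑ l, ∑ i, g.E (a l i))
  obtain ⟨d', a', D', z', hdn', hD', hz', hDz'⟩ := simp_int hkc'
  let J : Type := (Σ l : Fin n, Fin (d l)) ⊕ Fin d'
  let aJ : J → Fin g.N := Sum.elim (fun p => a p.1 p.2) a'
  let zJ : J → ℕ := Sum.elim (fun _ => D') z'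
  let φ : Fin (Fintype.card J) ≃ J := (Fintype.equivFin J).symm
  have hsumJ : ((D' * k' : ℕ) : ℤ) • u = ∑ j : J, (zJ j : ℤ) • g.E (aJ j) := by
    rw [Fintype.sum_sum_type, Fintype.sum_sigma]
    have h1 : ∑ l : Fin n, ∑ i : Fin (d l), (zJ (Sum.inl ⟨l, i⟩) : ℤ) • g.E (aJ (Sum.inl ⟨l, i⟩)) =
        (D' : ℤ) • ∑ l, ∑ i, g.E (a l i) := by
      rw [Finset.smul_sum]
      refine Finset.sum_congr rfl fun l _ => ?_
      rw [Finset.smul_sum]
      rfl
    have h2 : ∑ i : Fin d', (zJ (Sum.inr i) : ℤ) • g.E (aJ (Sum.inr i)) =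
        (D' : ℤ) • ((k' : ℤ) • u + -∑ l, ∑ i, g.E (a l i)) := by
      rw [hDz']
      rfl
    rw [h1, h2, smul_add, smul_neg, smul_smul]
    push_cast
    abel
  refine ⟨Fintype.card J, fun i => aJ (φ i), D' * k', fun i => zJ (φ i), ?_,
    Nat.mul_pos hD' hk', fun i => ?_, ?_, fun l => ?_⟩
  · simp only [J, Fintype.card_sum, Fintype.card_sigma, Fintype.card_fin]
    refine add_le_add ?_ hdn'
    calc ∑ l, d l ≤ ∑ _l : Fin n, n := Finset.sum_le_sum fun l _ => hdn l
      _ = n * n := by simp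
  · change 0 < zJ (φ i)
    rcases φ i with p | p
    · exact hD'
    · exact hz' p
  · rw [hsumJ, ← φ.sum_comp]
  · let y : J → ℤ := fun j => (D' * k' : ℕ) * (Sum.elim
      (fun p : (Σ l : Fin n, Fin (d l)) => if h : p.1 = l then ((z p.1 p.2 : ℕ) : ℤ) else 0)
        (fun _ => 0) j) - (D l * k l : ℕ) * (zJ j : ℤ)
    refine ⟨D' * k' * D l, fun i => y (φ i),
      Nat.mul_pos (Nat.mul_pos hD' hk') (hD l), ?_⟩
    rw [φ.sum_comp fun j => y j • g.E (aJ j)]
    have h1 : ∑ j : J, y j • g.E (aJ j) = ((D' * k' : ℕ) : ℤ) • ∑ i, (z l i : ℤ) • g.E (a l i) -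
        ((D l * k l : ℕ) : ℤ) • ∑ j : J, (zJ j : ℤ) • g.E (aJ j) := by
      simp only [y, sub_smul, Finset.sum_sub_distrib, mul_smul, ← Finset.smul_sum]
      congr 2
      rw [Fintype.sum_sum_type, Fintype.sum_sigma, Finset.sum_eq_single l]
      · have h2 : ∑ i : Fin d', ((Sum.elim (fun p : (Σ l : Fin n, Fin (d l)) =>
            if h : p.1 = l then ((z p.1 p.2 : ℕ) : ℤ) else 0) (fun _ => 0) (Sum.inr i) : ℤ)) •
              g.E (aJ (Sum.inr i)) = 0 := Finset.sum_eq_zero fun i _ => by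
          simp only [Sum.elim_inr]
          exact zero_smul _ _
        rw [h2, add_zero]
        refine Finset.sum_congr rfl fun i _ => ?_
        simp only [Sum.elim_inl, dite_true]
        rfl
      · intro l' _ hl'
        refine Finset.sum_eq_zero fun i _ => ?_
        simp only [Sum.elim_inl]
        rw [dif_neg hl', zero_smul]
      · intro h; exact absurd (Finset.mem_univ _) h
    rw [h1, ← hsumJ, ← hDz l, smul_add, smul_add, smul_smul, smul_smul, smul_smul, smul_smul]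
    push_cast
    rw [show (D' : ℤ) * k' * D l * k l = D l * k l * (D' * k') by ring]
    abel

/-- linearity on families -/
theorem nu_lin2 {g : ToricGerm n K} {p : MvPolynomial (Fin n) ℂ} (hp : Prime p) (h : ¬ Thr g p)
    {d : ℕ} (a : Fin d → Fin g.N) (z : Fin d → ℕ) :
    nu (∑ i, (z i : ℤ) • g.E (a i)) p = ∑ i, (z i : ℤ) * nu (g.E (a i)) p := by
  classical
  let z' : Fin g.N → ℕ := fun j => ∑ i with a i = j, z i
  have h1 : ∑ i, (z i : ℤ) • g.E (a i) = ∑ j, (z' j : ℤ) • g.E j := by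
    rw [← Finset.sum_fiberwise Finset.univ a]
    refine Finset.sum_congr rfl fun j _ => ?_
    simp only [z']
    push_cast
    rw [Finset.sum_smul]
    exact Finset.sum_congr rfl fun i hi => by rw [(Finset.mem_filter.1 hi).2]
  have h2 : ∑ i, (z i : ℤ) * nu (g.E (a i)) p = ∑ j, (z' j : ℤ) * nu (g.E j) p := by
    rw [← Finset.sum_fiberwise Finset.univ a]
    refine Finset.sum_congr rfl fun j _ => ?_
    simp only [z']
    push_cast
    rw [Finset.sum_mul]
    exact Finset.sum_congr rfl fun i hi => by rw [(Finset.mem_filter.1 hi).2]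
  rw [h1, h2, nu_lin hp h]

/-- the order of a prime divisor which does not pass through `P` or does not meet the torus is
given by one monomial -/
theorem nonthr_lin {g : ToricGerm n K} {p : MvPolynomial (Fin n) ℂ} (hp : Prime p)
    (h : ¬ Thr g p) : ∃ M : Fin n → ℤ, (∀ i, nu (g.E i) p = pr M (g.E i)) ∧
      ∀ v : DVal K, OverAt g.P v → v.ord (jo (Fin n) K p) = pr M (tv v) := by
  obtain ⟨s, hs, hs1⟩ := nu_mem (∑ i, g.E i) hp.ne_zero
  have h1 : nu (∑ i, g.E i) p = ∑ i, nu (g.E i) p := by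
    have := nu_lin hp h fun _ => 1
    simpa using this
  have h2 : ∀ i ∈ Finset.univ, nu (g.E i) p ≤ pr (ACC.ex s) (g.E i) := fun i _ => nu_le _ hs
  have h3 : ∀ i, nu (g.E i) p = pr (ACC.ex s) (g.E i) := by
    have := (Finset.sum_eq_sum_iff_of_le h2).1 (by rw [← h1, hs1, pr_sum_right])
    exact fun i => this i (Finset.mem_univ i)
  refine ⟨ACC.ex s, h3, fun v hv => ?_⟩
  rw [(not_thr hp h).1 v hv]
  obtain ⟨d, a, D, z, -, hD, -, hDz⟩ := simp_int (inCone_over hv)
  have h4 := nu_lin2 hp h a z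
  rw [← hDz, nu_smul _ (Int.natCast_nonneg D) hp.ne_zero] at h4
  have h5 : (D : ℤ) * pr (ACC.ex s) (tv v) = ∑ i, (z i : ℤ) * nu (g.E (a i)) p := by
    rw [← pr_smul_right, hDz, pr_sum_right]
    exact Finset.sum_congr rfl fun i _ => by rw [pr_smul_right, h3]
  have hD' : (D : ℤ) ≠ 0 := by exact_mod_cast hD.ne'
  exact mul_left_cancel₀ hD' (h4.trans h5.symm)

end Pool.Agent.TH165.IDX
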