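import Mathlib
import Pool.Agent.TH165.IDX.Sel
import Pool.Agent.TH165.IDX.Cart

/-!
# Cartier indices on arbitrary toric germs
-/

set_option autoImplicit false
set_option linter.unusedSectionVars false

namespace Pool.Agent.TH165.IDX

open Pool.Agent.H436R3.Fol Pool.Agent.H436R3.KT Pool.Agent.W497.Mld Pool.Agent.TH165.ACC
  Pool.Agent.TH165.LSC MvPolynomial

variable {n d : ℕ}

/-- a finite part of the group `GE A` -/
def FT (A : Fin d → Fin n → ℤ) (T : ℕ) : AddSubgroup (Fin d → UnitAddCircle) :=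
  GE A ⊓ (nsmulAddMonoidHom T : (Fin d → UnitAddCircle) →+ (Fin d → UnitAddCircle)).ker

theorem FT_finite (A : Fin d → Fin n → ℤ) {T : ℕ} (hT : 0 < T) : Finite (FT A T) := by
  have hfin : (Set.pi Set.univ fun _ : Fin d => {x : UnitAddCircle | T • x = 0}).Finite :=
    Set.Finite.pi fun _ => AddCircle.finite_torsion (1 : ℝ) hT
  refine Set.Finite.subset hfin ?_
  rintro x ⟨-, hx⟩ i -
  exact congrFun hx i

theorem mem_FT {A : Fin d → Fin n → ℤ} {T : ℕ} {w : Fin d → ℝ} {u : Fin n → ℤ}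
    (h : Coord A w u) (hT : ∀ i, ∃ k : ℤ, (T : ℝ) * w i = k) :
    (fun i => (w i : UnitAddCircle)) ∈ FT A T := by
  refine ⟨⟨w, u, rfl, h⟩, ?_⟩
  funext i
  obtain ⟨k, hk⟩ := hT i
  change T • (w i : UnitAddCircle) = 0
  rw [← AddCircle.coe_nsmul, AddCircle.coe_eq_zero_iff]
  exact ⟨k, by rw [nsmul_eq_mul, hk, zsmul_eq_mul, mul_one]⟩

theorem dual_FT {A : Fin d → Fin n → ℤ} {T : ℕ} {m : Fin d → ℤ} (h : m ∈ dualG (GE A)) :
    m ∈ dualG (FT A T) := fun x hx => h x hx.1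

variable {K : Type} [Field K] [Algebra ℂ K] [Algebra (MvPolynomial (Fin n) ℂ) K]
  [IsFractionRing (MvPolynomial (Fin n) ℂ) K] [IsScalarTower ℂ (MvPolynomial (Fin n) ℂ) K]

open Classical in
theorem index_step2 {g : ToricGerm n K} {B : EffDiv g.X} (e : LocEq B g.P)
    {F : Finset (MvPolynomial (Fin n) ℂ)} {c : MvPolynomial (Fin n) ℂ → ℝ}
    (hFp : ∀ p ∈ F, Prime p)
    (hc : ∀ v : DVal K, ∑ k, e.ρ k * (v.ord (e.g k) : ℝ) =
      ∑ p ∈ F, c p * (v.ord (jo (Fin n) K p) : ℝ))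
    (a : Fin d → Fin g.N) {D : Fin n → ℕ} {y : Fin n → Fin d → ℤ} (hD : ∀ l, 0 < D l)
    (hy : ∀ l, (D l : ℤ) • (Pi.single l 1 : Fin n → ℤ) = ∑ i, y l i • g.E (a i)) {I0 I : ℕ}
    (b : MvPolynomial (Fin n) ℂ → ℤ) (hb : ∀ p ∈ F, Thr g p → (I0 : ℝ) * c p = b p)
    (t : MvPolynomial (Fin n) ℂ → Fin n → ℤ) (κ : Fin d → ℤ)
    (hκ : ∀ i, (κ i : ℝ) = I0 * (-∑ p ∈ F with ¬ Thr g p, c p * (nu (g.E (a i)) p : ℝ) -
      ∑ p ∈ F with Thr g p, c p * (pr (t p) (g.E (a i)) : ℝ)))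
    {G : AddSubgroup (Fin d → UnitAddCircle)}
    (hG : ∀ l, (fun i => (((y l i : ℝ) / D l : ℝ) : UnitAddCircle)) ∈ G)
    (hdual : (fun i => (I : ℤ) * κ i) ∈ dualG G) : CartierAt B g.P (I * I0) := by
  have hM : ∀ l : Fin n, ∃ z : ℤ, ∑ i, (((I : ℤ) * κ i : ℤ) : ℝ) * ((y l i : ℝ) / D l) = z :=
    fun l => (mF_one_iff _ _).1 (hdual _ (hG l))
  choose M1 hM1 using hM
  have hnt : ∀ p, ∃ M : Fin n → ℤ, p ∈ F → ¬ Thr g p → (∀ i, nu (g.E i) p = pr M (g.E i)) ∧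
      ∀ v : DVal K, OverAt g.P v → v.ord (jo (Fin n) K p) = pr M (tv v) := by
    intro p
    by_cases h : p ∈ F ∧ ¬ Thr g p
    · obtain ⟨M, hM⟩ := nonthr_lin (hFp p h.1) h.2
      exact ⟨M, fun _ _ => hM⟩
    · exact ⟨0, fun h1 h2 => absurd ⟨h1, h2⟩ h⟩
  choose MM hMM using hnt
  have hadd : ∀ (S : Finset (MvPolynomial (Fin n) ℂ)) (q : MvPolynomial (Fin n) ℂ → Fin n → ℤ)
      (x x' : Fin n → ℤ), ∑ p ∈ S, c p * (pr (q p) (x + x') : ℝ) =
        ∑ p ∈ S, c p * (pr (q p) x : ℝ) + ∑ p ∈ S, c p * (pr (q p) x' : ℝ) := by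
    intro S q x x'
    rw [← Finset.sum_add_distrib]
    refine Finset.sum_congr rfl fun p _ => ?_
    rw [pr_add_right]
    push_cast
    ring
  let θ : (Fin n → ℤ) →+ ℝ := AddMonoidHom.mk' (fun x =>
    (I0 : ℝ) * (-∑ p ∈ F with ¬ Thr g p, c p * (pr (MM p) x : ℝ) -
      ∑ p ∈ F with Thr g p, c p * (pr (t p) x : ℝ))) (by
        intro x x'
        simp only [hadd]
        ring)
  have hθ : ∀ x, θ x = (I0 : ℝ) * (-∑ p ∈ F with ¬ Thr g p, c p * (pr (MM p) x : ℝ) -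
      ∑ p ∈ F with Thr g p, c p * (pr (t p) x : ℝ)) := fun _ => rfl
  have hθs : ∀ (k : ℤ) (x : Fin n → ℤ), θ (k • x) = k * θ x := fun k x => by
    rw [map_zsmul, zsmul_eq_mul]
  have hκ' : ∀ i, θ (g.E (a i)) = κ i := by
    intro i
    rw [hκ i, hθ]
    congr 3
    refine Finset.sum_congr rfl fun p hp => ?_
    obtain ⟨hpF, hpT⟩ := Finset.mem_filter.1 hp
    rw [(hMM p hpF hpT).1]
  have hθe : ∀ l, (I : ℝ) * θ (Pi.single l 1) = M1 l := by
    intro l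
    have hDl : (D l : ℝ) ≠ 0 := by exact_mod_cast (hD l).ne'
    have h1 : (D l : ℝ) * θ (Pi.single l 1) = ∑ i, (y l i : ℝ) * (κ i : ℝ) := by
      have h2 := congrArg θ (hy l)
      rw [hθs, map_sum] at h2
      simp only [hθs, hκ'] at h2
      rw [← h2]
      push_cast
      rfl
    have h3 : θ (Pi.single l 1) = (∑ i, (y l i : ℝ) * (κ i : ℝ)) / D l := by
      rw [← h1]
      field_simp
    rw [← hM1 l, h3, Finset.sum_div, Finset.mul_sum]
    refine Finset.sum_congr rfl fun i _ => ?_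
    push_cast
    ring
  have hθu : ∀ u : Fin n → ℤ, (I : ℝ) * θ u = pr M1 u := by
    intro u
    have h1 : u = ∑ l, u l • (Pi.single l 1 : Fin n → ℤ) := by
      funext j
      simp [Finset.sum_apply, Pi.single_apply]
    have h2 : θ u = ∑ l, (u l : ℝ) * θ (Pi.single l 1) := by
      conv_lhs => rw [h1]
      rw [map_sum]
      simp only [hθs]
    rw [h2, pr, Finset.mul_sum]
    push_cast
    refine Finset.sum_congr rfl fun l _ => ?_
    rw [← hθe l]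
    ring
  set M : Fin n → ℤ := -M1 - (I : ℤ) • ∑ p ∈ F with Thr g p, b p • t p with hMdef
  have hprM : ∀ u, pr M u = -pr M1 u - I * ∑ p ∈ F with Thr g p, b p * pr (t p) u := by
    intro u
    have h1 : ∀ (S : Finset (MvPolynomial (Fin n) ℂ)), pr (∑ p ∈ S, b p • t p) u =
        ∑ p ∈ S, b p * pr (t p) u := by
      intro S
      induction S using Finset.induction_on with
      | empty => rw [Finset.sum_empty, Finset.sum_empty, pr_zero]
      | insert x S hx ih => rw [Finset.sum_insert hx, Finset.sum_insert hx, pr_add, pr_smul, ih]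
    rw [hMdef, pr_sub, pr_neg, pr_smul, h1]
  refine ⟨(∏ p ∈ F with Thr g p, jo (Fin n) K p ^ ((I : ℤ) * b p)) * ym K M, ?_, fun v hv => ?_⟩
  · refine mul_ne_zero (Finset.prod_ne_zero_iff.2 fun p hp => zpow_ne_zero _ ?_) (ym_ne _)
    exact jo_ne (hFp p (Finset.mem_filter.1 hp).1).ne_zero
  · obtain ⟨N, hN, h1⟩ := e.eq v hv
    refine ⟨N, hN, ?_⟩
    have hov : OverAt g.P v := ⟨⟨g.X.R, g.X.fg, le_rfl, hv.1⟩, hv.2⟩
    set u : Fin n → ℤ := tv v with hu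
    have hne : ∀ p ∈ F.filter fun p => Thr g p, jo (Fin n) K p ^ ((I : ℤ) * b p) ≠ 0 :=
      fun p hp => zpow_ne_zero _ (jo_ne (hFp p (Finset.mem_filter.1 hp).1).ne_zero)
    have hprod : (∏ p ∈ F with Thr g p, jo (Fin n) K p ^ ((I : ℤ) * b p)) ≠ 0 :=
      Finset.prod_ne_zero_iff.2 hne
    have hordf : v.ord ((∏ p ∈ F with Thr g p, jo (Fin n) K p ^ ((I : ℤ) * b p)) * ym K M) =
        ∑ p ∈ F with Thr g p, (I : ℤ) * b p * v.ord (jo (Fin n) K p) + pr M u := by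
      rw [v.map_mul _ _ hprod (ym_ne _), v.ord_prod _ _ hne, ord_ym]
      congr 1
      refine Finset.sum_congr rfl fun p hp => ?_
      rw [v.ord_zpow (jo_ne (hFp p (Finset.mem_filter.1 hp).1).ne_zero)]
    have hN1 : (N : ℝ) + B.mult v = ∑ p ∈ F with Thr g p, c p * (v.ord (jo (Fin n) K p) : ℝ) +
        ∑ p ∈ F with ¬ Thr g p, c p * (pr (MM p) u : ℝ) := by
      rw [h1, hc, ← Finset.sum_filter_add_sum_filter_not F (fun p => Thr g p)]
      congr 1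
      refine Finset.sum_congr rfl fun p hp => ?_
      obtain ⟨hpF, hpT⟩ := Finset.mem_filter.1 hp
      rw [(hMM p hpF hpT).2 v hov]
    have hthr : ∀ q : MvPolynomial (Fin n) ℂ → ℝ, (I0 : ℝ) * ∑ p ∈ F with Thr g p, c p * q p =
        ∑ p ∈ F with Thr g p, (b p : ℝ) * q p := by
      intro q
      rw [Finset.mul_sum]
      refine Finset.sum_congr rfl fun p hp => ?_
      obtain ⟨hpF, hpT⟩ := Finset.mem_filter.1 hp
      rw [← hb p hpF hpT]
      ring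
    have h8 : ∑ p ∈ F with Thr g p, (I : ℝ) * (b p : ℝ) * (v.ord (jo (Fin n) K p) : ℝ) =
        (I : ℝ) * ∑ p ∈ F with Thr g p, (b p : ℝ) * (v.ord (jo (Fin n) K p) : ℝ) := by
      rw [Finset.mul_sum]
      exact Finset.sum_congr rfl fun p _ => by ring
    have h9 : ((pr M u : ℤ) : ℝ) = -((I : ℝ) * θ u) -
        I * ∑ p ∈ F with Thr g p, (b p : ℝ) * (pr (t p) u : ℝ) := by
      rw [hprM u, hθu u]; push_cast; ring
    have h10 := hthr fun p => (v.ord (jo (Fin n) K p) : ℝ)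
    have h11 := hthr fun p => (pr (t p) u : ℝ)
    rw [hN1, hordf]
    push_cast
    rw [h8, h9, hθ, ← h10, ← h11]
    ring

end Pool.Agent.TH165.IDX
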