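import Mathlib
import Pool.Agent.TH165.ACC.BddGeo

/-!
# Bounded index: the combinatorial statement (second version)
-/

set_option autoImplicit false

namespace Pool.Agent.TH165.IDX2

namespace Comb2

open Pool.Agent.TH165.ACC Filter Topology Set

variable {d : ℕ}

theorem mF_coe (x : Fin d → ℤ) (w : Fin d → ℝ) :
    UnitAddTorus.mFourier x (fun i => (w i : UnitAddCircle)) =
      Complex.exp (2 * Real.pi * Complex.I * ((∑ i, (x i : ℝ) * w i : ℝ) : ℂ)) := by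
  simp only [UnitAddTorus.mFourier, ContinuousMap.coe_mk, fourier_coe_apply]
  rw [← Complex.exp_sum]
  congr 1
  push_cast
  rw [Finset.mul_sum]
  refine Finset.sum_congr rfl fun i _ => ?_
  ring

theorem clear_den {c : ℕ} (f : Fin c → ℚ) :
    ∃ (b : ℤ) (z : Fin c → ℤ), b ≠ 0 ∧ ∀ i, (z i : ℚ) = b * f i := by
  obtain ⟨b, hb⟩ := IsLocalization.exist_integer_multiples_of_finite (nonZeroDivisors ℤ) f
  choose z hz using hb
  refine ⟨b, z, nonZeroDivisors.coe_ne_zero b, fun i => ?_⟩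
  have := hz i
  rw [zsmul_eq_mul] at this
  simpa using this

/-- duality -/
theorem dual (L : AddSubgroup (Fin d → ℤ)) (κ : Fin d → ℤ)
    (h : ∀ η : Fin d → ℤ, (∀ x ∈ L, ∑ i, x i * η i = 0) → ∑ i, κ i * η i = 0) :
    ∃ K : ℕ, 0 < K ∧ (fun i => (K : ℤ) * κ i) ∈ L := by
  let U : Submodule ℚ (Fin d → ℚ) :=
    { carrier := {v | ∃ K : ℕ, 0 < K ∧ ∃ x ∈ L, ∀ i, (K : ℚ) * v i = (x i : ℚ)}
      add_mem' := by
        rintro v w ⟨K, hK, x, hx, hv⟩ ⟨K', hK', x', hx', hw⟩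
        refine ⟨K * K', Nat.mul_pos hK hK', K' • x + K • x',
          add_mem (nsmul_mem hx _) (nsmul_mem hx' _), fun i => ?_⟩
        have e1 : (K' • x + K • x') i = (K' : ℤ) * x i + (K : ℤ) * x' i := by simp
        rw [e1, Pi.add_apply]
        push_cast
        rw [← hv i, ← hw i]
        ring
      zero_mem' := ⟨1, one_pos, 0, zero_mem _, fun i => by simp⟩
      smul_mem' := by
        rintro q v ⟨K, hK, x, hx, hv⟩
        refine ⟨K * q.den, Nat.mul_pos hK q.pos, q.num • x, zsmul_mem hx _, fun i => ?_⟩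
        have e1 : (q.num • x) i = q.num * x i := by simp
        rw [e1, Pi.smul_apply, smul_eq_mul]
        push_cast
        rw [← hv i]
        have h1 : (q.den : ℚ) * q = q.num := Rat.den_mul_eq_num q
        rw [← h1]
        ring }
  by_cases hκ : (fun i => (κ i : ℚ)) ∈ U
  · obtain ⟨K, hK, x, hx, hv⟩ := hκ
    refine ⟨K, hK, ?_⟩
    have : (fun i => (K : ℤ) * κ i) = x := by
      funext i
      have h1 : (K : ℚ) * (κ i : ℚ) = (x i : ℚ) := hv i
      exact_mod_cast h1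
    rw [this]
    exact hx
  · exfalso
    obtain ⟨f, hf, hker⟩ := Submodule.exists_le_ker_of_notMem hκ
    have hf_sum : ∀ w : Fin d → ℚ, f w = ∑ i, w i * f (Pi.single i 1) := by
      intro w
      rw [LinearMap.pi_apply_eq_sum_univ f w]
      refine Finset.sum_congr rfl fun i _ => ?_
      rw [smul_eq_mul]
      congr 2
      funext j
      by_cases h : i = j
      · subst h; simp
      · rw [if_neg h, Pi.single_eq_of_ne (Ne.symm h)]
    obtain ⟨b, y, hb, hy⟩ := clear_den fun i : Fin d => f (Pi.single i 1)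
    have hbq : (b : ℚ) ≠ 0 := by exact_mod_cast hb
    have hpr : ∀ w : Fin d → ℤ, ((∑ i, w i * y i : ℤ) : ℚ) = b * f (fun i => (w i : ℚ)) := by
      intro w
      rw [hf_sum, Finset.mul_sum]
      push_cast
      refine Finset.sum_congr rfl fun i _ => ?_
      rw [hy i]
      ring
    have h1 := h y fun x hx => by
      have h2 := hpr x
      have h3 : f (fun i => (x i : ℚ)) = 0 :=
        hker (show (fun i => (x i : ℚ)) ∈ U from ⟨1, one_pos, x, hx, fun i => by simp⟩)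
      rw [h3, mul_zero] at h2
      exact_mod_cast h2
    have h2 := hpr κ
    rw [h1, Int.cast_zero] at h2
    rcases mul_eq_zero.1 h2.symm with h3 | h3
    · exact hbq h3
    · exact hf h3

/-- perturbation in the direction `η` -/
theorem perturb {r : ℕ} (c : Fin r → ℝ) (hc : ∀ j, 0 < c j) (ε : ℝ)
    (G : ℕ → AddSubgroup (Fin d → UnitAddCircle)) (S : ℕ → Fin r → Set (Fin d → ℕ))
    (hfin : ∀ l, Finite (G l)) (hS : ∀ l j, (S l j).Nonempty)
    (hlow : ∀ l (w : Fin d → ℝ), (∀ i, 0 < w i) → (fun i => (w i : UnitAddCircle)) ∈ G l →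
      ε ≤ logDisc (S l) c w)
    (L : AddSubgroup (Fin d → ℤ)) (hL : ∀ x, ∀ᶠ l in atTop, (x ∈ dualG (G l) ↔ x ∈ L))
    (ω : Fin d → ℝ) (hω : ∀ i, 0 < ω i)
    (hωL : ∀ x ∈ L, UnitAddTorus.mFourier x (fun i => (ω i : UnitAddCircle)) = 1)
    (FF : Finset (Fin d → ℕ)) (mm : Fin r → Fin d → ℕ) (γ : ℝ) (hγ : 0 < γ)
    (hgap : ∀ᶠ l in atTop, ∀ j, ∀ m ∈ S l j,
      (m ∈ FF ∧ dt m ω = dt (mm j) ω ∧ (fun i => (m i : ℤ) - (mm j i : ℤ)) ∈ L) ∨
        dt (mm j) ω + γ ≤ dt m ω)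
    (hA : ∑ i, ω i - ∑ j, c j * dt (mm j) ω ≤ ε)
    (η : Fin d → ℤ) (hη : ∀ x ∈ L, ∑ i, x i * η i = 0) :
    0 ≤ ∑ i, (η i : ℝ) - ∑ j, c j * ∑ i, (mm j i : ℝ) * η i := by
  by_contra hneg
  push Not at hneg
  set e : Fin r → ℝ := fun j => ∑ i, (mm j i : ℝ) * η i with he
  set t : ℝ := -(∑ i, (η i : ℝ) - ∑ j, c j * e j) with ht
  have ht0 : 0 < t := by
    rw [ht]
    linarith
  have hμ0 : ∀ j, 0 ≤ dt (mm j) ω := fun j =>
    Finset.sum_nonneg fun i _ => mul_nonneg (Nat.cast_nonneg _) (hω i).le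
  -- the constants
  obtain ⟨κ, hκ0, hκ⟩ := fin_min ω hω
  obtain ⟨ρ, hρ0, hρ1, hρ⟩ : ∃ ρ : ℝ, 0 < ρ ∧ ρ < 1 ∧ ∀ j, ρ * (dt (mm j) ω + γ) ≤ γ / 2 := by
    set Mμ : ℝ := ∑ j, dt (mm j) ω + γ with hMμ
    have hsum0 : 0 ≤ ∑ j, dt (mm j) ω := Finset.sum_nonneg fun j _ => hμ0 j
    have hM0 : 0 < Mμ := by linarith
    refine ⟨γ / (2 * Mμ), by positivity, ?_, fun j => ?_⟩
    · rw [div_lt_one (by linarith)]
      linarith
    · have h1 : dt (mm j) ω + γ ≤ Mμ := by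
        have := Finset.single_le_sum (f := fun j => dt (mm j) ω) (fun j _ => hμ0 j)
          (Finset.mem_univ j)
        rw [hMμ]
        simpa using add_le_add_right this γ
      calc γ / (2 * Mμ) * (dt (mm j) ω + γ) ≤ γ / (2 * Mμ) * Mμ :=
            mul_le_mul_of_nonneg_left h1 (by positivity)
        _ = γ / 2 := by
            field_simp
  obtain ⟨s, hs0, hs1, hs2⟩ : ∃ s : ℝ, 0 < s ∧ (∀ j, s * |e j| ≤ γ / 2) ∧
      ∀ i, s * |(η i : ℝ)| ≤ ρ * κ / 2 := by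
    set E : ℝ := ∑ j, |e j| + 1 with hE
    set H : ℝ := ∑ i, |(η i : ℝ)| + 1 with hH
    have hE0 : 0 < E := by
      have : 0 ≤ ∑ j, |e j| := Finset.sum_nonneg fun j _ => abs_nonneg _
      linarith
    have hH0 : 0 < H := by
      have : 0 ≤ ∑ i, |(η i : ℝ)| := Finset.sum_nonneg fun j _ => abs_nonneg _
      linarith
    refine ⟨min (γ / (2 * E)) (ρ * κ / (2 * H)), lt_min (by positivity) (by positivity),
      fun j => ?_, fun i => ?_⟩
    · have h1 : |e j| ≤ E := by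
        have := Finset.single_le_sum (f := fun j => |e j|) (fun j _ => abs_nonneg _)
          (Finset.mem_univ j)
        rw [hE]
        linarith
      calc min (γ / (2 * E)) (ρ * κ / (2 * H)) * |e j| ≤ γ / (2 * E) * E :=
            mul_le_mul (min_le_left _ _) h1 (abs_nonneg _) (by positivity)
        _ = γ / 2 := by field_simp
    · have h1 : |(η i : ℝ)| ≤ H := by
        have := Finset.single_le_sum (f := fun i => |(η i : ℝ)|) (fun j _ => abs_nonneg _)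
          (Finset.mem_univ i)
        rw [hH]
        linarith
      calc min (γ / (2 * E)) (ρ * κ / (2 * H)) * |(η i : ℝ)| ≤ ρ * κ / (2 * H) * H :=
            mul_le_mul (min_le_right _ _) h1 (abs_nonneg _) (by positivity)
        _ = ρ * κ / 2 := by field_simp
  obtain ⟨M, hM0, hM⟩ : ∃ M : ℝ, 0 ≤ M ∧ ∀ m ∈ FF, ∑ i, (m i : ℝ) ≤ M := by
    refine ⟨∑ m ∈ FF, ∑ i, (m i : ℝ), Finset.sum_nonneg fun m _ => Finset.sum_nonneg fun i _ =>
      Nat.cast_nonneg _, fun m hm => ?_⟩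
    exact Finset.single_le_sum (f := fun m : Fin d → ℕ => ∑ i, (m i : ℝ))
      (fun m _ => Finset.sum_nonneg fun i _ => Nat.cast_nonneg _) hm
  have hC0 : 0 ≤ ∑ j, c j := Finset.sum_nonneg fun j _ => (hc j).le
  obtain ⟨δ, hδ0, hδ1, hδ2⟩ : ∃ δ : ℝ, 0 < δ ∧ δ ≤ ρ * κ / 2 ∧
      δ * (d + M * ∑ j, c j) < s * t := by
    set D : ℝ := d + M * ∑ j, c j + 1 with hD
    have hD0 : 0 ≤ (d : ℝ) + M * ∑ j, c j := by positivity
    have hD1 : 0 < D := by linarith
    refine ⟨min (ρ * κ / 2) (s * t / (2 * D)), lt_min (by positivity) (by positivity),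
      min_le_left _ _, ?_⟩
    calc min (ρ * κ / 2) (s * t / (2 * D)) * (d + M * ∑ j, c j) ≤ s * t / (2 * D) * D :=
          mul_le_mul (min_le_right _ _) (by linarith) hD0 (by positivity)
      _ = s * t / 2 := by field_simp
      _ < s * t := by
          have := mul_pos hs0 ht0
          linarith
  -- the approximation
  have hg : ∀ x ∈ (L : Set (Fin d → ℤ)),
      UnitAddTorus.mFourier x (fun i => ((ω i + s * η i : ℝ) : UnitAddCircle)) = 1 := by
    intro x hx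
    have h1 := hωL x hx
    rw [mF_coe] at h1 ⊢
    rw [← h1]
    congr 3
    have h2 : (∑ i, (x i : ℝ) * (η i : ℝ)) = 0 := by
      have := hη x hx
      exact_mod_cast this
    calc ∑ i, (x i : ℝ) * (ω i + s * η i) = ∑ i, (x i : ℝ) * ω i + s * ∑ i, (x i : ℝ) * η i := by
          rw [Finset.mul_sum, ← Finset.sum_add_distrib]
          exact Finset.sum_congr rfl fun i _ => by ring
      _ = ∑ i, (x i : ℝ) * ω i := by rw [h2, mul_zero, add_zero]
  obtain ⟨l, hl, g', hg', hdist⟩ := (hgap.and (approx G hfin (L : Set (Fin d → ℤ)) hL _ hg δ hδ0)).exists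
  obtain ⟨w', hw'g, hw'⟩ := lift_close (fun i => ω i + s * η i) g' δ hδ0 hdist
  have hlo : ∀ i, ω i + s * η i - δ ≤ w' i := fun i => by
    have := (abs_lt.1 (hw' i)).1
    linarith
  have hup : ∀ i, w' i ≤ ω i + s * η i + δ := fun i => by
    have := (abs_lt.1 (hw' i)).2
    linarith
  have hlow' : ∀ i, (1 - ρ) * ω i ≤ w' i := by
    intro i
    have e1 := hlo i
    have e2 := hs2 i
    have e3 : -(s * |(η i : ℝ)|) ≤ s * η i := by
      have := neg_abs_le (η i : ℝ)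
      nlinarith
    have e4 : ρ * κ ≤ ρ * ω i := mul_le_mul_of_nonneg_left (hκ i) hρ0.le
    linarith
  have hpos : ∀ i, 0 < w' i := fun i =>
    lt_of_lt_of_le (mul_pos (by linarith) (hω i)) (hlow' i)
  have hord : ∀ j, dt (mm j) ω + s * e j - δ * M ≤ ordAlong (S l j) w' := by
    intro j
    apply le_ord (hS l j)
    intro m hm
    rcases hl j m hm with ⟨hmF, hmω, hmL⟩ | hbig
    · have h1 : ∑ i, (m i : ℝ) * η i = e j := by
        have h2 := hη _ hmL
        have h3 : ∑ i, ((m i : ℝ) - (mm j i : ℝ)) * (η i : ℝ) = 0 := by exact_mod_cast h2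
        have h4 : ∑ i, ((m i : ℝ) - (mm j i : ℝ)) * (η i : ℝ) = ∑ i, (m i : ℝ) * η i - e j := by
          rw [he, ← Finset.sum_sub_distrib]
          exact Finset.sum_congr rfl fun i _ => by ring
        linarith
      have h2 : δ * ∑ i, (m i : ℝ) ≤ δ * M := mul_le_mul_of_nonneg_left (hM m hmF) hδ0.le
      calc dt (mm j) ω + s * e j - δ * M ≤ dt m ω + s * ∑ i, (m i : ℝ) * η i - δ * ∑ i, (m i : ℝ) := by
            rw [hmω, h1]
            linarith
        _ = ∑ i, (m i : ℝ) * (ω i + s * η i - δ) := by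
            rw [dt, Finset.mul_sum, Finset.mul_sum, ← Finset.sum_add_distrib,
              ← Finset.sum_sub_distrib]
            exact Finset.sum_congr rfl fun i _ => by ring
        _ ≤ ∑ i, (m i : ℝ) * w' i := Finset.sum_le_sum fun i _ =>
            mul_le_mul_of_nonneg_left (hlo i) (Nat.cast_nonneg _)
    · have h1 := hρ j
      have h2 := hs1 j
      have h3 : s * e j ≤ s * |e j| := mul_le_mul_of_nonneg_left (le_abs_self _) hs0.le
      have h4 : 0 ≤ δ * M := by positivity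
      calc dt (mm j) ω + s * e j - δ * M ≤ (1 - ρ) * (dt (mm j) ω + γ) := by linarith
        _ ≤ (1 - ρ) * dt m ω := mul_le_mul_of_nonneg_left hbig (by linarith)
        _ = ∑ i, (m i : ℝ) * ((1 - ρ) * ω i) := by
            rw [dt, Finset.mul_sum]
            exact Finset.sum_congr rfl fun i _ => by ring
        _ ≤ ∑ i, (m i : ℝ) * w' i := Finset.sum_le_sum fun i _ =>
            mul_le_mul_of_nonneg_left (hlow' i) (Nat.cast_nonneg _)
  have hmem : ε ≤ logDisc (S l) c w' := by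
    apply hlow l w' hpos
    rw [hw'g]
    exact hg'
  have hsum1 : ∑ i, w' i ≤ ∑ i, ω i + s * ∑ i, (η i : ℝ) + δ * d := by
    calc ∑ i, w' i ≤ ∑ i, (ω i + s * η i + δ) := Finset.sum_le_sum fun i _ => hup i
      _ = ∑ i, ω i + s * ∑ i, (η i : ℝ) + δ * d := by
          rw [Finset.sum_add_distrib, Finset.sum_add_distrib, Finset.mul_sum, Finset.sum_const,
            Finset.card_univ, Fintype.card_fin, nsmul_eq_mul]
          ring
  have hsum2 : ∑ j, c j * dt (mm j) ω + s * ∑ j, c j * e j - δ * M * ∑ j, c j ≤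
      ∑ j, c j * ordAlong (S l j) w' := by
    calc ∑ j, c j * dt (mm j) ω + s * ∑ j, c j * e j - δ * M * ∑ j, c j
        = ∑ j, c j * (dt (mm j) ω + s * e j - δ * M) := by
          rw [Finset.mul_sum, Finset.mul_sum, ← Finset.sum_add_distrib, ← Finset.sum_sub_distrib]
          exact Finset.sum_congr rfl fun j _ => by ring
      _ ≤ _ := Finset.sum_le_sum fun j _ => mul_le_mul_of_nonneg_left (hord j) (hc j).le
  rw [logDisc] at hmem
  have h9 : s * (∑ i, (η i : ℝ) - ∑ j, c j * e j) = -(s * t) := by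
    rw [ht]
    ring
  nlinarith

theorem coe_nat (G : AddSubgroup (Fin d → UnitAddCircle)) (p : Fin d → ℕ) :
    (fun i => (((p i : ℕ) : ℝ) : UnitAddCircle)) ∈ G := by
  have : (fun i => (((p i : ℕ) : ℝ) : UnitAddCircle)) = (0 : Fin d → UnitAddCircle) := by
    funext i
    have h1 : ((p i : ℕ) : ℝ) = (p i) • (1 : ℝ) := by simp
    rw [h1, AddCircle.coe_nsmul, AddCircle.coe_period, smul_zero]
    rfl
  rw [this]
  exact zero_mem G

theorem core {r : ℕ} (I0 : ℕ) (hI0 : 0 < I0) (a : Fin r → ℕ) (ha : ∀ j, 0 < a j) (ε : ℝ)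
    (hε : 0 ≤ ε) (G : ℕ → AddSubgroup (Fin d → UnitAddCircle)) (S : ℕ → Fin r → Set (Fin d → ℕ))
    (hfin : ∀ l, Finite (G l)) (hS : ∀ l j, (S l j).Nonempty)
    (hdiff : ∀ l j, ∀ m ∈ S l j, ∀ m' ∈ S l j,
      (fun i => (m i : ℤ) - (m' i : ℤ)) ∈ dualG (G l))
    (hlow : ∀ l (w : Fin d → ℝ), (∀ i, 0 < w i) → (fun i => (w i : UnitAddCircle)) ∈ G l →
      ε ≤ logDisc (S l) (fun j => (a j : ℝ) / I0) w)
    (hatt : ∃ w : Fin d → ℝ, (∀ i, 0 < w i) ∧ (fun i => (w i : UnitAddCircle)) ∈ G 0 ∧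
      logDisc (S 0) (fun j => (a j : ℝ) / I0) w = ε)
    (L : AddSubgroup (Fin d → ℤ)) (hL : ∀ x, ∀ᶠ l in atTop, (x ∈ dualG (G l) ↔ x ∈ L))
    (hLle : ∀ l, L ≤ dualG (G l))
    (Sinf : Fin r → Set (Fin d → ℕ)) (hSinf : ∀ j m, ∀ᶠ l in atTop, (m ∈ S l j ↔ m ∈ Sinf j))
    (hM : ∀ j m, (¬ ∃ s ∈ S 0 j, s ≤ m) → ∀ᶠ l in atTop, ¬ ∃ s ∈ S l j, s ≤ m) :
    ∃ K : ℕ, 0 < K ∧ ∀ᶠ l in atTop, ∀ m : Fin r → Fin d → ℕ, (∀ j, m j ∈ S l j) →
      (fun i => (K : ℤ) * ((I0 : ℤ) - ∑ j, (a j : ℤ) * (m j i : ℤ))) ∈ dualG (G l) := by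
  obtain ⟨ω, hω, hωG, hωε⟩ := hatt
  have hI0r : (0 : ℝ) < I0 := by exact_mod_cast hI0
  set c : Fin r → ℝ := fun j => (a j : ℝ) / I0 with hcdef
  have hc : ∀ j, 0 < c j := fun j => div_pos (by exact_mod_cast ha j) hI0r
  set W : ℝ := ∑ i, ω i with hW
  have hW0 : 0 ≤ W := Finset.sum_nonneg fun i _ => (hω i).le
  -- (2)
  have h3 : ∀ᶠ l in atTop, ∀ j : Fin r, ∀ m ∈ S l j, ordAlong (S 0 j) ω ≤ ∑ i, (m i : ℝ) * ω i := by
    rw [Filter.eventually_all]
    intro j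
    have hfin' := finite_small ω hω (ordAlong (S 0 j) ω)
    have h4 : ∀ᶠ l in atTop, ∀ m ∈ hfin'.toFinset, ¬ ∃ s ∈ S l j, s ≤ m := by
      rw [Filter.eventually_all_finset]
      intro m hm
      rw [Set.Finite.mem_toFinset] at hm
      apply hM j m
      rintro ⟨s, hs, hsm⟩
      exact absurd hm (not_lt.2 (ord_le (fun i => (hω i).le) hs hsm))
    filter_upwards [h4] with l hl m hm
    by_contra hcon
    push Not at hcon
    exact hl m (hfin'.mem_toFinset.2 hcon) ⟨m, hm, le_rfl⟩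
  -- (3)
  have hlc : ∀ l, IsLc (S l) c := fun l =>
    isLc_of_int (hS l) hc fun p hp => hε.trans
      (hlow l (fun i => (p i : ℝ)) (fun i => by exact_mod_cast hp i) (coe_nat (G l) p))
  have hordnn : ∀ l j, 0 ≤ ordAlong (S l j) ω := fun l j => ord_nonneg (hS l j) fun i => (hω i).le
  have hordW : ∀ l j, c j * ordAlong (S l j) ω ≤ W := by
    intro l j
    have h1 := hlc l ω hω
    rw [logDisc] at h1
    have h2 : c j * ordAlong (S l j) ω ≤ ∑ j, c j * ordAlong (S l j) ω :=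
      Finset.single_le_sum (f := fun j => c j * ordAlong (S l j) ω)
        (fun j _ => mul_nonneg (hc j).le (hordnn l j)) (Finset.mem_univ j)
    linarith
  set C : ℝ := ∑ j, W / c j + 1 with hC
  have hordC : ∀ l j, ordAlong (S l j) ω + 1 ≤ C := by
    intro l j
    have h1 : ordAlong (S l j) ω ≤ W / c j := by
      rw [le_div_iff₀ (hc j), mul_comm]
      exact hordW l j
    have h2 : W / c j ≤ ∑ j, W / c j :=
      Finset.single_le_sum (f := fun j => W / c j) (fun j _ => div_nonneg hW0 (hc j).le)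
        (Finset.mem_univ j)
    linarith
  set FF : Finset (Fin d → ℕ) := (finite_small ω hω C).toFinset with hFF
  have hmemFF : ∀ m : Fin d → ℕ, m ∈ FF ↔ dt m ω < C := by
    intro m
    rw [hFF, Set.Finite.mem_toFinset]
    rfl
  have h5 : ∀ᶠ l in atTop, ∀ j : Fin r, ∀ m ∈ FF, (m ∈ S l j ↔ m ∈ Sinf j) := by
    rw [Filter.eventually_all]
    intro j
    rw [Filter.eventually_all_finset]
    intro m _
    exact hSinf j m
  obtain ⟨l1, hl1⟩ := eventually_atTop.1 (h3.and h5)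
  have h6 : ∀ j, ∃ m ∈ S l1 j, ordAlong (S l1 j) ω = dt m ω := fun j => exists_ord (hS l1 j) hω
  choose mm hmmS hmmω using h6
  have hmmF : ∀ j, mm j ∈ FF := fun j => by
    rw [hmemFF, ← hmmω j]
    have := hordC l1 j
    linarith
  have hmminf : ∀ j, mm j ∈ Sinf j := fun j => ((hl1 l1 le_rfl).2 j (mm j) (hmmF j)).1 (hmmS j)
  have hmmSl : ∀ l ≥ l1, ∀ j, mm j ∈ S l j := fun l hl j =>
    ((hl1 l hl).2 j (mm j) (hmmF j)).2 (hmminf j)
  have hmin : ∀ l ≥ l1, ∀ j, ∀ m ∈ S l j, dt (mm j) ω ≤ dt m ω := by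
    intro l hl j m hm
    by_cases hmF : m ∈ FF
    · have h7 : m ∈ S l1 j := ((hl1 l1 le_rfl).2 j m hmF).2 (((hl1 l hl).2 j m hmF).1 hm)
      rw [← hmmω j]
      exact ord_le (fun i => (hω i).le) h7 le_rfl
    · rw [hmemFF] at hmF
      have h7 := (hmemFF _).1 (hmmF j)
      linarith [not_lt.1 hmF]
  -- the gap
  obtain ⟨γ, hγ0, hγ1, hγ⟩ : ∃ γ : ℝ, 0 < γ ∧ γ ≤ 1 ∧ ∀ j, ∀ m ∈ FF, dt (mm j) ω < dt m ω →
      dt (mm j) ω + γ ≤ dt m ω := by
    obtain ⟨κ, hκ0, hκ⟩ := fin_min (ι := Fin r × FF)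
      (fun p => if dt (mm p.1) ω < dt p.2.1 ω then dt p.2.1 ω - dt (mm p.1) ω else 1) (by
        intro p
        split_ifs with h
        · linarith
        · exact one_pos)
    refine ⟨min κ 1, lt_min hκ0 one_pos, min_le_right _ _, fun j m hm hlt => ?_⟩
    have h7 := hκ (j, ⟨m, hm⟩)
    simp only at h7
    rw [if_pos hlt] at h7
    have h8 := min_le_left κ 1
    linarith
  have hgap0 : ∀ l ≥ l1, ∀ j, ∀ m ∈ S l j, (m ∈ FF ∧ dt m ω = dt (mm j) ω) ∨
      dt (mm j) ω + γ ≤ dt m ω := by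
    intro l hl j m hm
    have h7 := hmin l hl j m hm
    by_cases hmF : m ∈ FF
    · rcases h7.lt_or_eq with h8 | h8
      · exact Or.inr (hγ j m hmF h8)
      · exact Or.inl ⟨hmF, h8.symm⟩
    · refine Or.inr ?_
      rw [hmemFF] at hmF
      have h8 := hordC l1 j
      rw [hmmω j] at h8
      linarith [not_lt.1 hmF]
  have hdiffL : ∀ j, ∀ m ∈ FF, m ∈ Sinf j → (fun i => (m i : ℤ) - (mm j i : ℤ)) ∈ L := by
    intro j m _ hm
    obtain ⟨l, h7, h8, h9⟩ := ((hSinf j m).and ((hSinf j (mm j)).and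
      (hL (fun i => (m i : ℤ) - (mm j i : ℤ))))).exists
    exact h9.1 (hdiff l j m (h7.2 hm) (mm j) (h8.2 (hmminf j)))
  have hgap : ∀ᶠ l in atTop, ∀ j, ∀ m ∈ S l j,
      (m ∈ FF ∧ dt m ω = dt (mm j) ω ∧ (fun i => (m i : ℤ) - (mm j i : ℤ)) ∈ L) ∨
        dt (mm j) ω + γ ≤ dt m ω := by
    filter_upwards [eventually_ge_atTop l1] with l hl j m hm
    rcases hgap0 l hl j m hm with ⟨h7, h8⟩ | h7
    · exact Or.inl ⟨h7, h8, hdiffL j m h7 (((hl1 l hl).2 j m h7).1 hm)⟩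
    · exact Or.inr h7
  have hA : ∑ i, ω i - ∑ j, c j * dt (mm j) ω ≤ ε := by
    have h7 : ∑ j, c j * ordAlong (S 0 j) ω ≤ ∑ j, c j * dt (mm j) ω := by
      refine Finset.sum_le_sum fun j _ => mul_le_mul_of_nonneg_left ?_ (hc j).le
      exact (hl1 l1 le_rfl).1 j (mm j) (hmmS j)
    rw [logDisc] at hωε
    linarith
  have hωL : ∀ x ∈ L, UnitAddTorus.mFourier x (fun i => (ω i : UnitAddCircle)) = 1 :=
    fun x hx => hLle 0 hx _ hωG
  -- duality
  have hχ : ∀ η : Fin d → ℤ, (∀ x ∈ L, ∑ i, x i * η i = 0) →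
      ∑ i, ((I0 : ℤ) - ∑ j, (a j : ℤ) * (mm j i : ℤ)) * η i = 0 := by
    intro η hη
    have h7 := perturb c hc ε G S hfin hS hlow L hL ω hω hωL FF mm γ hγ0 hgap hA η hη
    have h8 := perturb c hc ε G S hfin hS hlow L hL ω hω hωL FF mm γ hγ0 hgap hA (-η) (by
      intro x hx
      have := hη x hx
      simp only [Pi.neg_apply, mul_neg, Finset.sum_neg_distrib, this, neg_zero])
    have h9 : ∑ i, (((-η) i : ℤ) : ℝ) - ∑ j, c j * ∑ i, (mm j i : ℝ) * (((-η) i : ℤ) : ℝ) =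
        -(∑ i, (η i : ℝ) - ∑ j, c j * ∑ i, (mm j i : ℝ) * (η i : ℝ)) := by
      simp only [Pi.neg_apply, Int.cast_neg, mul_neg, Finset.sum_neg_distrib]
      ring
    rw [h9] at h8
    have h10 : ∑ i, (η i : ℝ) - ∑ j, c j * ∑ i, (mm j i : ℝ) * (η i : ℝ) = 0 := by linarith
    have h11 : (((∑ i, ((I0 : ℤ) - ∑ j, (a j : ℤ) * (mm j i : ℤ)) * η i : ℤ)) : ℝ) =
        I0 * (∑ i, (η i : ℝ) - ∑ j, c j * ∑ i, (mm j i : ℝ) * (η i : ℝ)) := by
      push_cast
      rw [mul_sub, Finset.mul_sum, Finset.mul_sum]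
      have h12 : ∀ j, (I0 : ℝ) * (c j * ∑ i, (mm j i : ℝ) * (η i : ℝ)) =
          ∑ i, (a j : ℝ) * (mm j i : ℝ) * (η i : ℝ) := by
        intro j
        rw [← mul_assoc, hcdef]
        simp only
        rw [mul_div_cancel₀ _ hI0r.ne', Finset.mul_sum]
        exact Finset.sum_congr rfl fun i _ => by ring
      rw [Finset.sum_congr rfl fun j _ => h12 j, Finset.sum_comm, ← Finset.sum_sub_distrib]
      refine Finset.sum_congr rfl fun i _ => ?_
      rw [sub_mul, Finset.sum_mul]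
    rw [h10, mul_zero] at h11
    exact_mod_cast h11
  obtain ⟨K, hK, hKL⟩ := dual L _ hχ
  refine ⟨K, hK, ?_⟩
  filter_upwards [eventually_ge_atTop l1] with l hl m hm
  have h7 : (fun i => (K : ℤ) * ((I0 : ℤ) - ∑ j, (a j : ℤ) * (mm j i : ℤ))) ∈ dualG (G l) :=
    hLle l hKL
  have h8 : ∑ j, (K * a j) • (fun i => (mm j i : ℤ) - (m j i : ℤ)) ∈ dualG (G l) :=
    sum_mem fun j _ => nsmul_mem (hdiff l j _ (hmmSl l hl j) _ (hm j)) _
  have h9 := add_mem h7 h8
  have h10 : ((fun i => (K : ℤ) * ((I0 : ℤ) - ∑ j, (a j : ℤ) * (mm j i : ℤ))) +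
      ∑ j, (K * a j) • (fun i => (mm j i : ℤ) - (m j i : ℤ)) : Fin d → ℤ) =
      fun i => (K : ℤ) * ((I0 : ℤ) - ∑ j, (a j : ℤ) * (m j i : ℤ)) := by
    funext i
    rw [Pi.add_apply, Finset.sum_apply]
    simp only [Pi.smul_apply, nsmul_eq_mul]
    push_cast
    rw [mul_sub, mul_sub, Finset.mul_sum, Finset.mul_sum]
    have h11 : ∀ j, (K : ℤ) * (a j : ℤ) * ((mm j i : ℤ) - (m j i : ℤ)) =
        (K : ℤ) * ((a j : ℤ) * (mm j i : ℤ)) - (K : ℤ) * ((a j : ℤ) * (m j i : ℤ)) := fun j => by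
      ring
    rw [Finset.sum_congr rfl fun j _ => h11 j, Finset.sum_sub_distrib]
    ring
  rwa [h10] at h9

end Comb2

open Pool.Agent.TH165.ACC Filter Topology Set in
theorem comb {d r : ℕ} (I0 : ℕ) (hI0 : 0 < I0) (a : Fin r → ℕ) (ha : ∀ j, 0 < a j) (ε : ℝ)
    (hε : 0 ≤ ε) : ∃ I : ℕ, 0 < I ∧
    ∀ (G : AddSubgroup (Fin d → UnitAddCircle)) (S : Fin r → Set (Fin d → ℕ)), Finite G →
      (∀ j, (S j).Nonempty) →
      (∀ j, ∀ m ∈ S j, ∀ m' ∈ S j, (fun i => (m i : ℤ) - (m' i : ℤ)) ∈ dualG G) →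
      (∀ w : Fin d → ℝ, (∀ i, 0 < w i) → (fun i => (w i : UnitAddCircle)) ∈ G →
        ε ≤ logDisc S (fun j => (a j : ℝ) / I0) w) →
      (∃ w : Fin d → ℝ, (∀ i, 0 < w i) ∧ (fun i => (w i : UnitAddCircle)) ∈ G ∧
        logDisc S (fun j => (a j : ℝ) / I0) w = ε) →
      ∀ m : Fin r → Fin d → ℕ, (∀ j, m j ∈ S j) →
        (fun i => (I : ℤ) * ((I0 : ℤ) - ∑ j, (a j : ℤ) * (m j i : ℤ))) ∈ dualG G := by
  by_contra hcon
  push Not at hcon
  have hcon' := fun k : ℕ => hcon k.factorial (Nat.factorial_pos k)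
  choose G S hfin hS hdiff hlow hatt mb hmb hbad using hcon'
  obtain ⟨θ1, h1, h1'⟩ := subseq_mono S
  obtain ⟨θ2, h2, Q, hQ⟩ := subseq_pred (fun l (x : Fin d → ℤ) => x ∈ dualG (G (θ1 l)))
  obtain ⟨θ3, h3, R, hR⟩ := subseq_pred
    (fun l (p : Fin r × (Fin d → ℕ)) => p.2 ∈ S (θ1 (θ2 l)) p.1)
  have hQ' : ∀ x, ∀ᶠ l in atTop, (x ∈ dualG (G (θ1 (θ2 (θ3 l)))) ↔ Q x) := fun x =>
    h3.tendsto_atTop.eventually (hQ x)
  let L : AddSubgroup (Fin d → ℤ) :=
    { carrier := {m | Q m}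
      add_mem' := by
        intro a b ha hb
        obtain ⟨l, h1, h2, h3⟩ := ((hQ a).and ((hQ b).and (hQ (a + b)))).exists
        exact h3.1 (add_mem (h1.2 ha) (h2.2 hb))
      zero_mem' := by
        obtain ⟨l, h1⟩ := (hQ 0).exists
        exact h1.1 (zero_mem _)
      neg_mem' := by
        intro a ha
        obtain ⟨l, h1, h2⟩ := ((hQ a).and (hQ (-a))).exists
        exact h2.1 (neg_mem (h1.2 ha)) }
  have hfg : ∃ s : Finset (Fin d → ℤ), AddSubgroup.closure (s : Set (Fin d → ℤ)) = L := by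
    have h1 : (AddSubgroup.toIntSubmodule L).FG := IsNoetherian.noetherian _
    obtain ⟨s, hs⟩ := h1
    refine ⟨s, ?_⟩
    have h2 := congrArg Submodule.toAddSubgroup hs
    rw [Submodule.span_int_eq_addSubgroupClosure] at h2
    simpa using h2
  obtain ⟨s, hs⟩ := hfg
  have h0 : ∀ᶠ l in atTop, ∀ m ∈ s, m ∈ dualG (G (θ1 (θ2 (θ3 l)))) := by
    rw [Filter.eventually_all_finset]
    intro m hm
    have hmL : m ∈ L := hs ▸ AddSubgroup.subset_closure hm
    filter_upwards [hQ' m] with l hl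
    exact hl.2 hmL
  obtain ⟨l0, hl0⟩ := eventually_atTop.1 h0
  have hle : ∀ l ≥ l0, L ≤ dualG (G (θ1 (θ2 (θ3 l)))) := by
    intro l hl
    rw [← hs, AddSubgroup.closure_le]
    intro m hm
    exact hl0 l hl m hm
  set θ : ℕ → ℕ := fun l => θ1 (θ2 (θ3 (l + l0))) with hθ
  have hθmono : StrictMono θ :=
    (h1.comp (h2.comp h3)).comp (fun a b h => Nat.add_lt_add_right h l0)
  have hadd : Tendsto (fun l : ℕ => l + l0) atTop atTop := tendsto_add_atTop_nat l0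
  obtain ⟨K, hK, hev⟩ := Comb2.core I0 hI0 a ha ε hε (fun l => G (θ l)) (fun l => S (θ l))
    (fun l => hfin _) (fun l => hS _) (fun l => hdiff _) (fun l => hlow _) (hatt _) L
    (fun x => hadd.eventually (hQ' x)) (fun l => hle _ (Nat.le_add_left _ _))
    (fun j => {m | R (j, m)}) (fun j m => hadd.eventually (hR (j, m)))
    (fun j m hm => by
      have h4 := h1' (θ2 (θ3 (0 + l0))) j m hm
      exact (h2.comp (h3.comp (fun a b h => Nat.add_lt_add_right h l0))).tendsto_atTop.eventually h4)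
  obtain ⟨l, hl, hlK⟩ := (hev.and (eventually_ge_atTop K)).exists
  have h5 := hl (mb (θ l)) (hmb (θ l))
  apply hbad (θ l)
  have h6 : K ∣ (θ l).factorial :=
    Nat.dvd_factorial hK (hlK.trans (hθmono.id_le l))
  obtain ⟨q, hq⟩ := h6
  have h7 := nsmul_mem h5 q
  have h8 : (q • (fun i => (K : ℤ) * ((I0 : ℤ) - ∑ j, (a j : ℤ) * (mb (θ l) j i : ℤ))) :
      Fin d → ℤ) = fun i => ((θ l).factorial : ℤ) * ((I0 : ℤ) -
        ∑ j, (a j : ℤ) * (mb (θ l) j i : ℤ)) := by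
    funext i
    rw [hq, Pi.smul_apply, nsmul_eq_mul]
    push_cast
    ring
  rwa [h8] at h7

end Pool.Agent.TH165.IDX2
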