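import Mathlib
import Pool.Agent.TH165.IDX.Lin

/-!
# Log discrepancies of monomial valuations, with the integral structure
-/

set_option autoImplicit false
set_option linter.unusedSectionVars false

namespace Pool.Agent.TH165.IDX

open Pool.Agent.H436R3.Fol Pool.Agent.H436R3.KT Pool.Agent.W497.Mld Pool.Agent.TH165.ACC
  Pool.Agent.TH165.LSC MvPolynomial

variable {n d : ℕ} {K : Type} [Field K] [Algebra ℂ K]
  [Algebra (MvPolynomial (Fin n) ℂ) K] [IsFractionRing (MvPolynomial (Fin n) ℂ) K]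
  [IsScalarTower ℂ (MvPolynomial (Fin n) ℂ) K]

open Classical in
theorem key2 {g : ToricGerm n K} {B : EffDiv g.X} (e : LocEq B g.P) {Γ : Set ℝ}
    (hB : CoeffIn B Γ) (a : Fin d → Fin g.N) {F : Finset (MvPolynomial (Fin n) ℂ)}
    {c : MvPolynomial (Fin n) ℂ → ℝ} (hFp : ∀ p ∈ F, Prime p)
    (hFd : ∀ p ∈ F, ∀ q ∈ F, p ∣ q → p = q)
    (hc : ∀ v : DVal K, ∑ k, e.ρ k * (v.ord (e.g k) : ℝ) =
      ∑ p ∈ F, c p * (v.ord (jo (Fin n) K p) : ℝ)) :
    ∃ (r : ℕ) (S : Fin r → Set (Fin d → ℕ)) (c2 : Fin r → ℝ),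
      (∀ j, (S j).Nonempty ∧ 0 ∉ S j ∧ c2 j ∈ Γ ∧ 0 < c2 j) ∧
      (∀ v : DVal K, IsMonomial n v → ∀ w : Fin d → ℝ, (∀ i, 0 ≤ w i) →
        Coord (fun i => g.E (a i)) w (tv v) →
        logDisc S c2 w = -∑ k, e.ρ k * (v.ord (e.g k) : ℝ)) ∧
      (∀ j, ∀ m ∈ S j, ∀ m' ∈ S j, ∃ δ : Fin n → ℤ,
        ∀ i, (m i : ℤ) - (m' i : ℤ) = pr δ (g.E (a i))) ∧
      ∃ (m : Fin r → Fin d → ℕ) (t : MvPolynomial (Fin n) ℂ → Fin n → ℤ), (∀ j, m j ∈ S j) ∧
        ∀ i, 1 - ∑ j, c2 j * (m j i : ℝ) =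
          -∑ p ∈ F with ¬ Thr g p, c p * (nu (g.E (a i)) p : ℝ) -
            ∑ p ∈ F with Thr g p, c p * (pr (t p) (g.E (a i)) : ℝ) := by
  choose vE hvE htE using fun i => exists_mon (K := K) (g.prim (a i))
  let A : Fin d → Fin n → ℤ := fun i => g.E (a i)
  set β : Fin d → ℝ := fun i => B.mult (vE i) with hβ
  have h1 : ∀ i, -1 + β i = ∑ p ∈ F, c p * ((vE i).ord (jo (Fin n) K p) : ℝ) := by
    intro i
    obtain ⟨b, hb, h2⟩ := e.eq (vE i) (ToricGerm.onAt_E (hvE i) (htE i))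
    have h3 : b = -1 := hb.unique (can_mon g.e g.hT (hvE i))
    rw [← hc, ← h2, h3]
    push_cast
    rfl
  have h2 : ∀ p ∈ F, Thr g p → 0 ≤ c p ∧ (c p ≠ 0 → c p ∈ Γ) := by
    rintro p hp ⟨hpp, hcv, hon⟩
    obtain ⟨b, hb, h3⟩ := e.eq _ hon
    have hL := g.local_prime hpp hcv
    have h4 : b = 0 := hb.unique (can_unit g.e g.hT (by rw [← g.hR]; exact hL) hcv)
    have h5 : ∑ q ∈ F, c q * ((valP K p hpp).ord (jo (Fin n) K q) : ℝ) = c p := by
      rw [Finset.sum_eq_single p]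
      · rw [valP_self]; push_cast; ring
      · intro q hq hqp
        rw [valP_other hpp (hFp q hq).ne_zero fun h => hqp (hFd p hp q hq h).symm]
        push_cast; ring
      · intro h; exact absurd hp h
    rw [hc, h5, h4, Int.cast_zero, zero_add] at h3
    rw [← h3]
    exact ⟨mult_nonneg B _, fun h => hB _ hL h⟩
  let I' : Finset (Fin d) := Finset.univ.filter fun i => β i ≠ 0
  let F' : Finset (MvPolynomial (Fin n) ℂ) :=
    F.filter fun p => Thr g p ∧ c p ≠ 0 ∧ (0 : Fin d → ℕ) ∉ Sp A vE p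
  let Si : {i // i ∈ I'} ⊕ {p // p ∈ F'} → Set (Fin d → ℕ) :=
    Sum.elim (fun i => {(Pi.single i.1 1 : Fin d → ℕ)}) fun p => Sp A vE p.1
  let ci : {i // i ∈ I'} ⊕ {p // p ∈ F'} → ℝ := Sum.elim (fun i => β i.1) fun p => c p.1
  -- chosen monomials
  have hsp : ∀ p ∈ F, ∃ s ∈ p.support, (0 : Fin d → ℕ) ∈ Sp A vE p →
      ∀ i, (0 : ℤ) = pr (ACC.ex s) (A i) - (vE i).ord (jo (Fin n) K p) := by
    intro p hp
    by_cases h0 : (0 : Fin d → ℕ) ∈ Sp A vE p
    · obtain ⟨s, hs, h3⟩ := h0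
      exact ⟨s, hs, fun _ i => by simpa using h3 i⟩
    · obtain ⟨s, hs⟩ : p.support.Nonempty := by
        rw [Finset.nonempty_iff_ne_empty, Ne, support_eq_empty]
        exact (hFp p hp).ne_zero
      exact ⟨s, hs, fun h => absurd h h0⟩
  let sp : MvPolynomial (Fin n) ℂ → Fin n →₀ ℕ := fun p =>
    if hp : p ∈ F then (hsp p hp).choose else 0
  have hsp1 : ∀ p ∈ F, sp p ∈ p.support ∧ ((0 : Fin d → ℕ) ∈ Sp A vE p →
      ∀ i, (0 : ℤ) = pr (ACC.ex (sp p)) (A i) - (vE i).ord (jo (Fin n) K p)) := by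
    intro p hp
    have : sp p = (hsp p hp).choose := dif_pos hp
    rw [this]
    exact (hsp p hp).choose_spec
  have hmp : ∀ p : {p // p ∈ F'}, ∃ m ∈ Sp A vE p.1, ∀ i, (m i : ℤ) =
      pr (ACC.ex (sp p.1)) (A i) - (vE i).ord (jo (Fin n) K p.1) := by
    intro p
    have hpF := (Finset.mem_filter.1 p.2).1
    exact Sp_mem hvE htE (hFp _ hpF).ne_zero (hsp1 _ hpF).1
  choose mp hmpS hmp using hmp
  let mi : {i // i ∈ I'} ⊕ {p // p ∈ F'} → Fin d → ℕ :=
    Sum.elim (fun i => Pi.single i.1 1) mp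
  let φ : Fin (Fintype.card ({i // i ∈ I'} ⊕ {p // p ∈ F'})) ≃ {i // i ∈ I'} ⊕ {p // p ∈ F'} :=
    (Fintype.equivFin _).symm
  refine ⟨_, fun j => Si (φ j), fun j => ci (φ j), ?_, ?_, ?_, fun j => mi (φ j),
    fun p => ACC.ex (sp p), ?_, ?_⟩
  · intro j
    change (Si (φ j)).Nonempty ∧ 0 ∉ Si (φ j) ∧ ci (φ j) ∈ Γ ∧ 0 < ci (φ j)
    generalize φ j = x
    rcases x with ⟨i, hi⟩ | ⟨p, hp⟩
    · have hi' : β i ≠ 0 := (Finset.mem_filter.1 hi).2
      refine ⟨⟨_, rfl⟩, ?_, ?_, ?_⟩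
      · intro h
        have h3 := congrFun (Set.mem_singleton_iff.1 h) i
        simp at h3
      · exact hB _ (ToricGerm.local_E (hvE i) (htE i)) hi'
      · exact lt_of_le_of_ne (mult_nonneg B _) (Ne.symm hi')
    · obtain ⟨hpF, hpT, hpc, hp0S⟩ := Finset.mem_filter.1 hp
      refine ⟨?_, hp0S, (h2 p hpF hpT).2 hpc,
        lt_of_le_of_ne (h2 p hpF hpT).1 (Ne.symm hpc)⟩
      exact ⟨_, hmpS ⟨p, hp⟩⟩
  · intro v hv w hw hco
    have e1 : ∑ j, ci (φ j) * ordAlong (Si (φ j)) w = ∑ i, β i * w i +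
        ∑ p ∈ F, (if Thr g p then c p * ((v.ord (jo (Fin n) K p) : ℝ) -
          ∑ i, w i * ((vE i).ord (jo (Fin n) K p) : ℝ)) else 0) := by
      rw [φ.sum_comp fun x => ci x * ordAlong (Si x) w, Fintype.sum_sum_type]
      congr 1
      · have h3 : ∑ i : {i // i ∈ I'}, ci (Sum.inl i) * ordAlong (Si (Sum.inl i)) w =
            ∑ i : {i // i ∈ I'}, β i.1 * w i.1 :=
          Finset.sum_congr rfl fun i _ => by
            change β i.1 * ordAlong {(Pi.single i.1 1 : Fin d → ℕ)} w = _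
            rw [ordAlong_single]
        rw [h3, Finset.sum_coe_sort I' fun i => β i * w i]
        refine Finset.sum_filter_of_ne fun i _ h4 h5 => h4 ?_
        rw [h5, zero_mul]
      · have h3 : ∑ p : {p // p ∈ F'}, ci (Sum.inr p) * ordAlong (Si (Sum.inr p)) w =
            ∑ p : {p // p ∈ F'}, c p.1 * ((v.ord (jo (Fin n) K p.1) : ℝ) -
              ∑ i, w i * ((vE i).ord (jo (Fin n) K p.1) : ℝ)) :=
          Finset.sum_congr rfl fun p _ => by
            change c p.1 * ordAlong (Sp A vE p.1) w = _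
            rw [ordAlong_Sp hvE htE hv hco (hFp p.1 (Finset.mem_filter.1 p.2).1).ne_zero]
        rw [h3, Finset.sum_coe_sort F' fun p => c p * ((v.ord (jo (Fin n) K p) : ℝ) -
              ∑ i, w i * ((vE i).ord (jo (Fin n) K p) : ℝ)), Finset.sum_filter]
        refine Finset.sum_congr rfl fun p hp => ?_
        by_cases h4 : Thr g p
        · by_cases h5 : c p = 0
          · simp [h5]
          · by_cases h6 : (0 : Fin d → ℕ) ∈ Sp A vE p
            · rw [if_neg (fun h => h.2.2 h6), if_pos h4]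
              have h7 := ordAlong_Sp hvE htE hv hco (hFp p hp).ne_zero
              rw [← h7, ordAlong_of_zero h6 hw, mul_zero]
            · rw [if_pos ⟨h4, h5, h6⟩, if_pos h4]
        · rw [if_neg (fun h => h4 h.1), if_neg h4]
    have e2 : ∑ p ∈ F, (if Thr g p then c p * ((v.ord (jo (Fin n) K p) : ℝ) -
          ∑ i, w i * ((vE i).ord (jo (Fin n) K p) : ℝ)) else 0) =
        ∑ p ∈ F, c p * ((v.ord (jo (Fin n) K p) : ℝ) -
          ∑ i, w i * ((vE i).ord (jo (Fin n) K p) : ℝ)) := by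
      refine Finset.sum_congr rfl fun p hp => ?_
      by_cases h4 : Thr g p
      · rw [if_pos h4]
      · rw [if_neg h4, lin_of_not_thr hvE htE (hFp p hp) h4 hv hw hco, sub_self, mul_zero]
    have e3 : ∑ p ∈ F, c p * ((v.ord (jo (Fin n) K p) : ℝ) -
          ∑ i, w i * ((vE i).ord (jo (Fin n) K p) : ℝ)) =
        ∑ p ∈ F, c p * (v.ord (jo (Fin n) K p) : ℝ) - ∑ i, w i * (-1 + β i) := by
      simp only [mul_sub, Finset.sum_sub_distrib]
      congr 1
      simp only [h1, Finset.mul_sum]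
      rw [Finset.sum_comm]
      exact Finset.sum_congr rfl fun i _ => Finset.sum_congr rfl fun p _ => by ring
    rw [logDisc, e1, e2, e3, hc]
    have e4 : ∑ i, w i * (-1 + β i) = -∑ i, w i + ∑ i, β i * w i := by
      rw [← Finset.sum_neg_distrib, ← Finset.sum_add_distrib]
      exact Finset.sum_congr rfl fun i _ => by ring
    rw [e4]
    ring
  · intro j
    change ∀ m ∈ Si (φ j), ∀ m' ∈ Si (φ j), _
    generalize φ j = x
    rcases x with i | p
    · intro m hm m' hm'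
      have h3 : m = m' := (Set.mem_singleton_iff.1 hm).trans (Set.mem_singleton_iff.1 hm').symm
      refine ⟨0, fun k => ?_⟩
      rw [h3, sub_self, pr_zero]
    · rintro m ⟨s, hs, hm⟩ m' ⟨s', hs', hm'⟩
      refine ⟨ACC.ex s - ACC.ex s', fun k => ?_⟩
      rw [hm, hm', pr_sub]
      ring
  · intro j
    change mi (φ j) ∈ Si (φ j)
    generalize φ j = x
    rcases x with i | p
    · exact rfl
    · exact hmpS p
  · intro i
    have e1 : ∑ j, ci (φ j) * (mi (φ j) i : ℝ) = β i +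
        ∑ p ∈ F with Thr g p, c p * ((pr (ACC.ex (sp p)) (A i) : ℝ) -
          ((vE i).ord (jo (Fin n) K p) : ℝ)) := by
      rw [φ.sum_comp fun x => ci x * (mi x i : ℝ), Fintype.sum_sum_type]
      congr 1
      · have h3 : ∑ k : {i // i ∈ I'}, ci (Sum.inl k) * (mi (Sum.inl k) i : ℝ) =
            ∑ k : {i // i ∈ I'}, (if k.1 = i then β k.1 else 0) :=
          Finset.sum_congr rfl fun k _ => by
            change β k.1 * (((Pi.single k.1 1 : Fin d → ℕ) i : ℕ) : ℝ) = _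
            by_cases h : k.1 = i
            · rw [if_pos h, h, Pi.single_eq_same]
              simp
            · rw [if_neg h, Pi.single_eq_of_ne (Ne.symm h)]
              simp
        rw [h3, Finset.sum_coe_sort I' fun k => if k = i then β k else 0,
          Finset.sum_ite_eq' I' i]
        by_cases h : β i = 0
        · rw [if_neg (fun h' : i ∈ I' => (Finset.mem_filter.1 h').2 h), h]
        · rw [if_pos (show i ∈ I' from Finset.mem_filter.2 ⟨Finset.mem_univ _, h⟩)]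
      · have h3 : ∑ p : {p // p ∈ F'}, ci (Sum.inr p) * (mi (Sum.inr p) i : ℝ) =
            ∑ p : {p // p ∈ F'}, c p.1 * ((pr (ACC.ex (sp p.1)) (A i) : ℝ) -
              ((vE i).ord (jo (Fin n) K p.1) : ℝ)) :=
          Finset.sum_congr rfl fun p _ => by
            change c p.1 * (mp p i : ℝ) = _
            congr 1
            have := hmp p i
            exact_mod_cast this
        rw [h3, Finset.sum_coe_sort F' fun p => c p * ((pr (ACC.ex (sp p)) (A i) : ℝ) -
              ((vE i).ord (jo (Fin n) K p) : ℝ)), Finset.sum_filter, Finset.sum_filter]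
        refine Finset.sum_congr rfl fun p hp => ?_
        by_cases h4 : Thr g p
        · by_cases h5 : c p = 0
          · simp [h5]
          · by_cases h6 : (0 : Fin d → ℕ) ∈ Sp A vE p
            · rw [if_neg (fun h => h.2.2 h6), if_pos h4]
              have h7 := (hsp1 p hp).2 h6 i
              have h8 : (pr (ACC.ex (sp p)) (A i) : ℝ) - ((vE i).ord (jo (Fin n) K p) : ℝ) = 0 := by
                exact_mod_cast h7.symm
              rw [h8, mul_zero]
            · rw [if_pos ⟨h4, h5, h6⟩, if_pos h4]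
        · rw [if_neg (fun h => h4 h.1), if_neg h4]
    have e2 : ∑ p ∈ F with ¬ Thr g p, c p * (nu (g.E (a i)) p : ℝ) =
        ∑ p ∈ F with ¬ Thr g p, c p * ((vE i).ord (jo (Fin n) K p) : ℝ) := by
      refine Finset.sum_congr rfl fun p hp => ?_
      rw [nu_mon (hvE i) (k := 1) one_pos.le (by rw [one_smul, htE])
        (hFp p (Finset.mem_filter.1 hp).1).ne_zero, one_mul]
    have e3 := h1 i
    rw [← Finset.sum_filter_add_sum_filter_not F (fun p => Thr g p)] at e3
    rw [e1, e2]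
    simp only [mul_sub, Finset.sum_sub_distrib]
    linarith

end Pool.Agent.TH165.IDX
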