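import Mathlib
import Pool.Agent.TH165.ACC.BddGeo

set_option autoImplicit false

namespace Pool.Agent.TH165.IDX

open Pool.Agent.TH165.ACC Filter Topology Set

namespace Comb

variable {d r : ℕ}

/-- characters at real points -/
theorem four (x : Fin d → ℤ) (y : Fin d → ℝ) :
    UnitAddTorus.mFourier x (fun i => (y i : UnitAddCircle)) =
      Complex.exp (2 * Real.pi * Complex.I * ((∑ i, (x i : ℝ) * y i : ℝ) : ℂ)) := by
  change ∏ i, fourier (x i) ((y i : UnitAddCircle)) = _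
  push_cast
  rw [Finset.mul_sum, Complex.exp_sum]
  refine Finset.prod_congr rfl fun i _ => ?_
  rw [fourier_coe_apply]
  congr 1
  push_cast
  ring

theorem four_add {x : Fin d → ℤ} {y z : Fin d → ℝ}
    (hy : UnitAddTorus.mFourier x (fun i => (y i : UnitAddCircle)) = 1)
    (hz : ∑ i, (x i : ℝ) * z i = 0) (s : ℝ) :
    UnitAddTorus.mFourier x (fun i => ((y i + s * z i : ℝ) : UnitAddCircle)) = 1 := by
  rw [four] at hy ⊢
  have h1 : ∑ i, (x i : ℝ) * (y i + s * z i) = ∑ i, (x i : ℝ) * y i := by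
    have h2 : ∑ i, (x i : ℝ) * (y i + s * z i) =
        ∑ i, (x i : ℝ) * y i + s * ∑ i, (x i : ℝ) * z i := by
      rw [Finset.mul_sum, ← Finset.sum_add_distrib]
      exact Finset.sum_congr rfl fun i _ => by ring
    rw [h2, hz, mul_zero, add_zero]
  rw [h1]
  exact hy

/-- clearing denominators in the rational span -/
theorem clear_span (L : AddSubgroup (Fin d → ℤ)) (v : Fin d → ℚ)
    (hv : v ∈ Submodule.span ℚ ((fun x : Fin d → ℤ => (fun i => (x i : ℚ))) '' (L : Set (Fin d → ℤ)))) :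
    ∃ K : ℕ, 0 < K ∧ ∃ y ∈ L, ∀ i, (K : ℚ) * v i = (y i : ℚ) := by
  induction hv using Submodule.span_induction with
  | mem z hz =>
    obtain ⟨x, hx, rfl⟩ := hz
    exact ⟨1, one_pos, x, hx, fun i => by simp⟩
  | zero => exact ⟨1, one_pos, 0, zero_mem _, fun i => by simp⟩
  | add z w _ _ hz hw =>
    obtain ⟨K1, h1, y1, hy1, e1⟩ := hz
    obtain ⟨K2, h2, y2, hy2, e2⟩ := hw
    refine ⟨K1 * K2, Nat.mul_pos h1 h2, K2 • y1 + K1 • y2,
      add_mem (AddSubgroup.nsmul_mem _ hy1 _) (AddSubgroup.nsmul_mem _ hy2 _), fun i => ?_⟩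
    have a1 := e1 i
    have a2 := e2 i
    have e3 : (K2 • y1 + K1 • y2 : Fin d → ℤ) i = K2 * y1 i + K1 * y2 i := by simp
    rw [e3, Pi.add_apply]
    push_cast
    rw [← a1, ← a2]
    ring
  | smul t z _ hz =>
    obtain ⟨K1, h1, y1, hy1, e1⟩ := hz
    refine ⟨K1 * t.den, Nat.mul_pos h1 t.den_pos, t.num • y1, AddSubgroup.zsmul_mem _ hy1 _,
      fun i => ?_⟩
    have a1 := e1 i
    simp only [Pi.smul_apply, smul_eq_mul]
    push_cast
    rw [← a1]
    have h3 : (t.den : ℚ) * t = t.num := by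
      rw [mul_comm]; exact Rat.mul_den_eq_num t
    calc (K1 : ℚ) * t.den * (t * z i) = (t.den * t) * (K1 * z i) := by ring
      _ = t.num * (K1 * z i) := by rw [h3]

/-- duality -/
theorem dual (L : AddSubgroup (Fin d → ℤ)) (κ : Fin d → ℤ)
    (h : ∀ η : Fin d → ℤ, (∀ x ∈ L, ∑ i, x i * η i = 0) → ∑ i, κ i * η i = 0) :
    ∃ K : ℕ, 0 < K ∧ (fun i => (K : ℤ) * κ i) ∈ L := by
  classical
  by_cases hmem : (fun i => (κ i : ℚ)) ∈ Submodule.span ℚ
      ((fun x : Fin d → ℤ => (fun i => (x i : ℚ))) '' (L : Set (Fin d → ℤ)))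
  · obtain ⟨K, hK, y, hy, e⟩ := clear_span L _ hmem
    refine ⟨K, hK, ?_⟩
    have : (fun i => (K : ℤ) * κ i) = y := by
      funext i
      have := e i
      exact_mod_cast this
    rw [this]
    exact hy
  · exfalso
    obtain ⟨f, hf, hker⟩ := Submodule.exists_le_ker_of_notMem hmem
    have hf_sum : ∀ w : Fin d → ℚ, f w = ∑ i, w i * f (Pi.single i 1) := by
      intro w
      rw [LinearMap.pi_apply_eq_sum_univ f w]
      refine Finset.sum_congr rfl fun i _ => ?_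
      rw [smul_eq_mul]
      congr 2
      funext j
      by_cases h : i = j
      · subst h; simp
      · rw [if_neg h, Pi.single_eq_of_ne (Ne.symm h)]
    set D : ℕ := ∏ i : Fin d, (f (Pi.single i 1)).den with hD
    have hDpos : 0 < D := Finset.prod_pos fun i _ => Rat.den_pos _
    have hη : ∀ i, ∃ z : ℤ, (D : ℚ) * f (Pi.single i 1) = z := by
      intro i
      obtain ⟨e, he⟩ := Finset.dvd_prod_of_mem (fun i : Fin d => (f (Pi.single i 1)).den)
        (Finset.mem_univ i)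
      refine ⟨e * (f (Pi.single i 1)).num, ?_⟩
      have h3 : ((f (Pi.single i 1)).den : ℚ) * (f (Pi.single i 1)) = (f (Pi.single i 1)).num := by
        rw [mul_comm]; exact Rat.mul_den_eq_num _
      rw [hD, he]
      push_cast
      rw [← h3]
      ring
    choose η hη using hη
    have key : ∀ x : Fin d → ℤ, ((∑ i, x i * η i : ℤ) : ℚ) = D * f (fun i => (x i : ℚ)) := by
      intro x
      rw [hf_sum]
      push_cast
      rw [Finset.mul_sum]
      refine Finset.sum_congr rfl fun i _ => ?_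
      rw [← hη i]
      ring
    have h1 : ∀ x ∈ L, ∑ i, x i * η i = 0 := by
      intro x hx
      have h2 : f (fun i => (x i : ℚ)) = 0 := hker (Submodule.subset_span ⟨x, hx, rfl⟩)
      have h3 := key x
      rw [h2, mul_zero] at h3
      exact_mod_cast h3
    have h4 := h η h1
    have h5 := key κ
    rw [h4] at h5
    have h6 : (D : ℚ) ≠ 0 := by exact_mod_cast hDpos.ne'
    apply hf
    have h7 : (D : ℚ) * f (fun i => (κ i : ℚ)) = 0 := by rw [← h5]; simp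
    exact (mul_eq_zero.1 h7).resolve_left h6

theorem core (c : Fin r → ℝ) (hc : ∀ j, 0 < c j) (ε : ℝ) (hε : 0 ≤ ε)
    (G : ℕ → AddSubgroup (Fin d → UnitAddCircle)) (S : ℕ → Fin r → Set (Fin d → ℕ))
    (hG : ∀ l, Finite (G l)) (hS : ∀ l j, (S l j).Nonempty)
    (hd : ∀ l j, ∀ m ∈ S l j, ∀ m' ∈ S l j, (fun i => (m i : ℤ) - (m' i : ℤ)) ∈ dualG (G l))
    (hl : ∀ l, ∀ w : Fin d → ℝ, (∀ i, 0 < w i) → (fun i => (w i : UnitAddCircle)) ∈ G l →
      ε ≤ logDisc (S l) c w)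
    (L : AddSubgroup (Fin d → ℤ)) (hL : ∀ x, ∀ᶠ l in atTop, (x ∈ dualG (G l) ↔ x ∈ L))
    (T : Fin r → Set (Fin d → ℕ)) (hT : ∀ j s, ∀ᶠ l in atTop, (s ∈ S l j ↔ s ∈ T j))
    (k0 : ℕ) (hM : ∀ j m, (¬ ∃ s ∈ S k0 j, s ≤ m) → ∀ᶠ l in atTop, ¬ ∃ s ∈ S l j, s ≤ m)
    (hLle : L ≤ dualG (G k0)) (ω : Fin d → ℝ) (hω : ∀ i, 0 < ω i)
    (hωG : (fun i => (ω i : UnitAddCircle)) ∈ G k0) (hωε : logDisc (S k0) c ω = ε) :
    ∃ p : Fin r → Fin d → ℕ, (∀ j, p j ∈ T j) ∧ ∀ η : Fin d → ℤ,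
      (∀ x ∈ L, ∑ i, x i * η i = 0) →
      0 ≤ ∑ i, (1 - ∑ j, c j * (p j i : ℝ)) * (η i : ℝ) := by
  classical
  set W : ℝ := ∑ i, ω i with hW
  have hW0 : 0 ≤ W := Finset.sum_nonneg fun i _ => (hω i).le
  obtain ⟨μ0, hμ0, hμ⟩ := fin_min ω hω
  have happ : ∀ v : Fin d → ℝ,
      (∀ x ∈ L, UnitAddTorus.mFourier x (fun i => (v i : UnitAddCircle)) = 1) →
      ∀ δ : ℝ, 0 < δ → ∀ᶠ l in atTop, ∃ w' : Fin d → ℝ,
        (fun i => (w' i : UnitAddCircle)) ∈ G l ∧ ∀ i, |w' i - v i| < δ := by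
    intro v hv δ hδ
    filter_upwards [approx G hG (L : Set (Fin d → ℤ)) hL _ hv δ hδ] with l hl'
    obtain ⟨g', hg', hdist⟩ := hl'
    obtain ⟨w', h1, h2⟩ := lift_close v g' δ hδ hdist
    exact ⟨w', by rw [h1]; exact hg', h2⟩
  have hωL : ∀ x ∈ L, UnitAddTorus.mFourier x (fun i => (ω i : UnitAddCircle)) = 1 :=
    fun x hx => hLle hx _ hωG
  -- bound for the orders
  set B : ℝ := ∑ j, 4 * W / c j with hBdef
  have hB0 : 0 ≤ B := Finset.sum_nonneg fun j _ => div_nonneg (by positivity) (hc j).le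
  have hB : ∀ᶠ l in atTop, ∀ j, ordAlong (S l j) ω ≤ B := by
    filter_upwards [happ ω hωL (μ0 / 2) (by positivity)] with l hl' j
    obtain ⟨w', hw'G, hw'⟩ := hl'
    have hlow : ∀ i, ω i / 2 ≤ w' i := fun i => by
      have e1 := (abs_lt.1 (hw' i)).1
      have e2 := hμ i
      linarith
    have hup : ∀ i, w' i ≤ 2 * ω i := fun i => by
      have e1 := (abs_lt.1 (hw' i)).2
      have e2 := hμ i
      have e3 := hω i
      linarith
    have hpos : ∀ i, 0 < w' i := fun i => lt_of_lt_of_le (by have := hω i; positivity) (hlow i)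
    have h1 := hl l w' hpos hw'G
    rw [logDisc] at h1
    have h2 : c j * ordAlong (S l j) w' ≤ ∑ j, c j * ordAlong (S l j) w' :=
      Finset.single_le_sum (f := fun j => c j * ordAlong (S l j) w')
        (fun j _ => mul_nonneg (hc j).le (ord_nonneg (hS l j) fun i => (hpos i).le))
        (Finset.mem_univ j)
    have h3 : ∑ i, w' i ≤ 2 * W := by
      rw [hW, Finset.mul_sum]
      exact Finset.sum_le_sum fun i _ => hup i
    obtain ⟨m, hm, hme⟩ := exists_ord (hS l j) hpos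
    have h4 : ordAlong (S l j) ω ≤ dt m ω := csInf_le (bdd fun i => (hω i).le) ⟨m, hm, rfl⟩
    have h5 : dt m ω ≤ 2 * dt m w' := by
      unfold dt
      rw [Finset.mul_sum]
      refine Finset.sum_le_sum fun i _ => ?_
      have e1 := hlow i
      have e2 : (0 : ℝ) ≤ m i := Nat.cast_nonneg _
      nlinarith
    have h6 : ordAlong (S l j) ω ≤ 4 * W / c j := by
      rw [le_div_iff₀ (hc j)]
      rw [hme] at h2
      have h7 : c j * dt m w' ≤ 2 * W := by linarith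
      have h8 : ordAlong (S l j) ω * c j ≤ (2 * dt m w') * c j :=
        mul_le_mul_of_nonneg_right (h4.trans h5) (hc j).le
      linarith
    exact h6.trans (Finset.single_le_sum (f := fun j => 4 * W / c j)
      (fun j _ => div_nonneg (by positivity) (hc j).le) (Finset.mem_univ j))
  have hFF : {m : Fin d → ℕ | ∑ i, (m i : ℝ) * ω i < B + 2}.Finite := finite_small ω hω _
  have hTF : ∀ᶠ l in atTop, ∀ j, ∀ m ∈ hFF.toFinset, (m ∈ S l j ↔ m ∈ T j) := by
    rw [Filter.eventually_all]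
    intro j
    rw [Filter.eventually_all_finset]
    exact fun m _ => hT j m
  have hex : ∀ j, ∃ p ∈ T j, dt p ω ≤ B ∧ ∀ m ∈ T j, dt m ω < B + 2 → dt p ω ≤ dt m ω := by
    intro j
    obtain ⟨l, h1, h2⟩ := (hB.and hTF).exists
    obtain ⟨m, hm, hme⟩ := exists_ord (hS l j) hω
    have h3 : dt m ω ≤ B := hme ▸ h1 j
    have h4 : m ∈ {m : Fin d → ℕ | ∑ i, (m i : ℝ) * ω i < B + 2} := by
      change dt m ω < B + 2
      linarith
    have h5 : m ∈ T j := (h2 j m (hFF.mem_toFinset.2 h4)).1 hm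
    obtain ⟨p, ⟨hp1, hp2⟩, hmin⟩ := Set.exists_min_image
      (T j ∩ {m : Fin d → ℕ | ∑ i, (m i : ℝ) * ω i < B + 2}) (fun m => dt m ω)
      (hFF.subset inter_subset_right) ⟨m, h5, h4⟩
    exact ⟨p, hp1, (hmin m ⟨h5, h4⟩).trans h3, fun m' h6 h7 => hmin m' ⟨h6, h7⟩⟩
  choose p hpT hpB hpmin using hex
  refine ⟨p, hpT, fun η hη => ?_⟩
  -- the gap
  obtain ⟨γ, hγ0, hγ1, hγ⟩ : ∃ γ : ℝ, 0 < γ ∧ γ ≤ 1 ∧ ∀ j, ∀ m ∈ hFF.toFinset,
      dt (p j) ω < dt m ω → dt (p j) ω + γ ≤ dt m ω := by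
    obtain ⟨γ, h1, h2⟩ := fin_min (fun x : Fin r × hFF.toFinset =>
      if dt (p x.1) ω < dt x.2.1 ω then dt x.2.1 ω - dt (p x.1) ω else 1) (by
        intro x
        split_ifs with h
        · linarith
        · exact one_pos)
    refine ⟨min γ 1, lt_min h1 one_pos, min_le_right _ _, fun j m hm h => ?_⟩
    have h3 := h2 (j, ⟨m, hm⟩)
    simp only [if_pos h] at h3
    have h4 := min_le_left γ 1
    linarith
  have hcase : ∀ᶠ l in atTop, ∀ j, ∀ m ∈ S l j,
      (m ∈ hFF.toFinset ∧ m ∈ T j ∧ dt m ω = dt (p j) ω) ∨ dt (p j) ω + γ ≤ dt m ω := by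
    filter_upwards [hTF] with l h1 j m hm
    by_cases hmF : m ∈ hFF.toFinset
    · have h2 := (h1 j m hmF).1 hm
      have h3 : dt m ω < B + 2 := hFF.mem_toFinset.1 hmF
      rcases (hpmin j m h2 h3).lt_or_eq with h4 | h4
      · exact Or.inr (hγ j m hmF h4)
      · exact Or.inl ⟨hmF, h2, h4.symm⟩
    · right
      have h3 : ¬ dt m ω < B + 2 := fun h => hmF (hFF.mem_toFinset.2 h)
      have h4 := hpB j
      push Not at h3
      linarith
  -- upper bound
  have hA : W - ∑ j, c j * dt (p j) ω ≤ ε := by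
    rw [← hωε, logDisc]
    refine sub_le_sub_left (Finset.sum_le_sum fun j _ =>
      mul_le_mul_of_nonneg_left ?_ (hc j).le) _
    by_contra hcon
    push Not at hcon
    have h1 : ¬ ∃ s ∈ S k0 j, s ≤ p j := by
      rintro ⟨s, hs, hsp⟩
      exact absurd (ord_le (fun i => (hω i).le) hs hsp) (not_le.2 hcon)
    obtain ⟨l, h2, h3⟩ := ((hM j (p j) h1).and (hT j (p j))).exists
    exact h2 ⟨p j, h3.2 (hpT j), le_rfl⟩
  -- differences
  have hdiff : ∀ j, ∀ m ∈ T j, ∑ i, (m i : ℝ) * (η i : ℝ) = ∑ i, (p j i : ℝ) * (η i : ℝ) := by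
    intro j m hm
    obtain ⟨l, h1, h2, h3⟩ := ((hT j m).and ((hT j (p j)).and
      (hL (fun i => (m i : ℤ) - (p j i : ℤ))))).exists
    have h4 := hη _ (h3.1 (hd l j m (h1.2 hm) (p j) (h2.2 (hpT j))))
    have h5 : ((∑ i, ((m i : ℤ) - (p j i : ℤ)) * η i : ℤ) : ℝ) = 0 := by
      rw [h4]; simp
    push_cast at h5
    simp only [sub_mul, Finset.sum_sub_distrib] at h5
    linarith
  by_contra hneg
  push Not at hneg
  set χη : ℝ := ∑ i, (1 - ∑ j, c j * (p j i : ℝ)) * (η i : ℝ) with hχ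
  have hχ2 : χη = ∑ i, (η i : ℝ) - ∑ j, c j * ∑ i, (p j i : ℝ) * (η i : ℝ) := by
    rw [hχ]
    simp only [sub_mul, one_mul, Finset.sum_sub_distrib, Finset.sum_mul, Finset.mul_sum]
    rw [Finset.sum_comm]
    congr 1
    exact Finset.sum_congr rfl fun j _ => Finset.sum_congr rfl fun i _ => by ring
  set N : ℝ := ∑ j, |∑ i, (p j i : ℝ) * (η i : ℝ)| with hN
  have hN0 : 0 ≤ N := Finset.sum_nonneg fun j _ => abs_nonneg _
  set E : ℝ := ∑ i, |(η i : ℝ)| + 1 with hE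
  have hE0 : 0 < E := by
    have : 0 ≤ ∑ i, |(η i : ℝ)| := Finset.sum_nonneg fun i _ => abs_nonneg _
    rw [hE]; linarith
  set K : ℝ := ∑ m ∈ hFF.toFinset, ∑ i, (m i : ℝ) with hK
  have hK0 : 0 ≤ K := Finset.sum_nonneg fun m _ => Finset.sum_nonneg fun i _ => Nat.cast_nonneg _
  set C : ℝ := ∑ j, c j with hC
  have hC0 : 0 ≤ C := Finset.sum_nonneg fun j _ => (hc j).le
  set ρ : ℝ := γ / (2 * (B + 1)) with hρ
  have hρ0 : 0 < ρ := by positivity
  have hρ1 : ρ * (B + 1) = γ / 2 := by rw [hρ]; field_simp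
  have hρ2 : ρ ≤ 1 / 2 := by nlinarith
  set s : ℝ := min (γ / (2 * (N + 1))) (ρ * μ0 / (2 * E)) with hs
  have hs0 : 0 < s := lt_min (by positivity) (by positivity)
  have hs1 : s * N ≤ γ / 2 := by
    have h1 : s ≤ γ / (2 * (N + 1)) := min_le_left _ _
    rw [le_div_iff₀ (by positivity)] at h1
    nlinarith
  have hs2 : s * E ≤ ρ * μ0 / 2 := by
    have h1 : s ≤ ρ * μ0 / (2 * E) := min_le_right _ _
    rw [le_div_iff₀ (by positivity)] at h1
    nlinarith
  set D : ℝ := d + K * C + 1 with hD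
  have hD0 : 0 < D := by positivity
  set δ : ℝ := min (ρ * μ0 / 2) (s * (-χη) / (2 * D)) with hδ
  have hsχ : 0 < s * (-χη) := mul_pos hs0 (by linarith)
  have hδ0 : 0 < δ := lt_min (by positivity) (by positivity)
  have hδ1 : δ ≤ ρ * μ0 / 2 := min_le_left _ _
  have hδ2 : δ * D ≤ s * (-χη) / 2 := by
    have h1 : δ ≤ s * (-χη) / (2 * D) := min_le_right _ _
    rw [le_div_iff₀ (by positivity)] at h1
    nlinarith
  have hv : ∀ x ∈ L, UnitAddTorus.mFourier x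
      (fun i => ((ω i + s * (η i : ℝ) : ℝ) : UnitAddCircle)) = 1 := by
    intro x hx
    refine four_add (hωL x hx) ?_ s
    have h1 := hη x hx
    have h2 : ((∑ i, x i * η i : ℤ) : ℝ) = 0 := by rw [h1]; simp
    push_cast at h2
    exact h2
  obtain ⟨l, hcase', w', hw'G, hw'⟩ := (hcase.and (happ _ hv δ hδ0)).exists
  have hlow : ∀ i, (1 - ρ) * ω i ≤ w' i := by
    intro i
    have e1 := (abs_lt.1 (hw' i)).1
    have e2 := hμ i
    have e3 : |(η i : ℝ)| ≤ E := by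
      have := Finset.single_le_sum (f := fun i => |(η i : ℝ)|) (fun i _ => abs_nonneg _)
        (Finset.mem_univ i)
      rw [hE]; linarith
    have e4 : s * |(η i : ℝ)| ≤ s * E := mul_le_mul_of_nonneg_left e3 hs0.le
    have e5 : -(s * |(η i : ℝ)|) ≤ s * (η i : ℝ) := by
      rw [← mul_neg]
      exact mul_le_mul_of_nonneg_left (neg_abs_le _) hs0.le
    have e6 : ρ * μ0 ≤ ρ * ω i := mul_le_mul_of_nonneg_left e2 hρ0.le
    have e7 : (1 - ρ) * ω i = ω i - ρ * ω i := by ring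
    rw [e7]
    linarith
  have hpos : ∀ i, 0 < w' i := fun i =>
    lt_of_lt_of_le (mul_pos (by linarith) (hω i)) (hlow i)
  have hord : ∀ j, dt (p j) ω + s * ∑ i, (p j i : ℝ) * (η i : ℝ) - K * δ ≤
      ordAlong (S l j) w' := by
    intro j
    apply le_ord (hS l j)
    intro m hm
    have hKδ : 0 ≤ K * δ := by positivity
    rcases hcase' j m hm with ⟨h1, h2, h3⟩ | h1
    · have h4 : ∑ i, (m i : ℝ) ≤ K := Finset.single_le_sum
        (f := fun m : Fin d → ℕ => ∑ i, (m i : ℝ))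
        (fun m _ => Finset.sum_nonneg fun i _ => Nat.cast_nonneg _) h1
      have h5 : dt m ω + s * ∑ i, (m i : ℝ) * (η i : ℝ) - (∑ i, (m i : ℝ)) * δ ≤
          ∑ i, (m i : ℝ) * w' i := by
        unfold dt
        rw [Finset.mul_sum, Finset.sum_mul, ← Finset.sum_add_distrib, ← Finset.sum_sub_distrib]
        refine Finset.sum_le_sum fun i _ => ?_
        have e1 := (abs_lt.1 (hw' i)).1
        have e2 : (0 : ℝ) ≤ m i := Nat.cast_nonneg _
        nlinarith
      rw [hdiff j m h2, h3] at h5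
      have h6 : (∑ i, (m i : ℝ)) * δ ≤ K * δ := mul_le_mul_of_nonneg_right h4 hδ0.le
      linarith
    · have h2 : (1 - ρ) * dt m ω ≤ ∑ i, (m i : ℝ) * w' i := by
        unfold dt
        rw [Finset.mul_sum]
        refine Finset.sum_le_sum fun i _ => ?_
        have e1 := hlow i
        have e2 : (0 : ℝ) ≤ m i := Nat.cast_nonneg _
        nlinarith
      have h3 : (1 - ρ) * (dt (p j) ω + γ) ≤ (1 - ρ) * dt m ω :=
        mul_le_mul_of_nonneg_left h1 (by linarith)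
      have h4 : ρ * (dt (p j) ω + γ) ≤ γ / 2 := by
        rw [← hρ1]
        refine mul_le_mul_of_nonneg_left ?_ hρ0.le
        have := hpB j
        linarith
      have h5 : s * ∑ i, (p j i : ℝ) * (η i : ℝ) ≤ γ / 2 := by
        refine le_trans ?_ hs1
        refine mul_le_mul_of_nonneg_left ?_ hs0.le
        exact (le_abs_self _).trans (Finset.single_le_sum
          (f := fun j => |∑ i, (p j i : ℝ) * (η i : ℝ)|) (fun j _ => abs_nonneg _)
          (Finset.mem_univ j))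
      nlinarith
  have hfin := hl l w' hpos hw'G
  rw [logDisc] at hfin
  have f1 : ∑ i, w' i ≤ W + s * ∑ i, (η i : ℝ) + d * δ := by
    calc ∑ i, w' i ≤ ∑ i, (ω i + s * (η i : ℝ) + δ) := Finset.sum_le_sum fun i _ => by
          have := (abs_lt.1 (hw' i)).2
          linarith
      _ = W + s * ∑ i, (η i : ℝ) + d * δ := by
          rw [Finset.sum_add_distrib, Finset.sum_add_distrib, Finset.mul_sum, Finset.sum_const,
            Finset.card_univ, Fintype.card_fin, nsmul_eq_mul]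
  have f2 : ∑ j, c j * (dt (p j) ω + s * ∑ i, (p j i : ℝ) * (η i : ℝ) - K * δ) ≤
      ∑ j, c j * ordAlong (S l j) w' :=
    Finset.sum_le_sum fun j _ => mul_le_mul_of_nonneg_left (hord j) (hc j).le
  have f3 : ∑ j, c j * (dt (p j) ω + s * ∑ i, (p j i : ℝ) * (η i : ℝ) - K * δ) =
      ∑ j, c j * dt (p j) ω + s * ∑ j, c j * ∑ i, (p j i : ℝ) * (η i : ℝ) - K * δ * C := by
    rw [hC, Finset.mul_sum Finset.univ _ s, Finset.mul_sum Finset.univ _ (K * δ),
      ← Finset.sum_add_distrib,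
      ← Finset.sum_sub_distrib]
    exact Finset.sum_congr rfl fun j _ => by ring
  rw [f3] at f2
  have f4 : s * χη = s * ∑ i, (η i : ℝ) - s * ∑ j, c j * ∑ i, (p j i : ℝ) * (η i : ℝ) := by
    rw [hχ2]; ring
  have f5 : δ * D = d * δ + K * δ * C + δ := by rw [hD]; ring
  linarith

end Comb

theorem comb {d r : ℕ} (I0 : ℕ) (hI0 : 0 < I0) (a : Fin r → ℕ) (ha : ∀ j, 0 < a j) (ε : ℝ)
    (hε : 0 ≤ ε) : ∃ I : ℕ, 0 < I ∧
    ∀ (G : AddSubgroup (Fin d → UnitAddCircle)) (S : Fin r → Set (Fin d → ℕ)), Finite G →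
      (∀ j, (S j).Nonempty) →
      (∀ j, ∀ m ∈ S j, ∀ m' ∈ S j, (fun i => (m i : ℤ) - (m' i : ℤ)) ∈ dualG G) →
      (∀ w : Fin d → ℝ, (∀ i, 0 < w i) → (fun i => (w i : UnitAddCircle)) ∈ G →
        ε ≤ logDisc S (fun j => (a j : ℝ) / I0) w) →
      (∃ w : Fin d → ℝ, (∀ i, 0 < w i) ∧ (fun i => (w i : UnitAddCircle)) ∈ G ∧
        logDisc S (fun j => (a j : ℝ) / I0) w = ε) →
      ∀ m : Fin r → Fin d → ℕ, (∀ j, m j ∈ S j) →
        (fun i => (I : ℤ) * ((I0 : ℤ) - ∑ j, (a j : ℤ) * (m j i : ℤ))) ∈ dualG G := by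
  classical
  by_contra hcon
  have H : ∀ k : ℕ, ∃ (G : AddSubgroup (Fin d → UnitAddCircle)) (S : Fin r → Set (Fin d → ℕ))
      (w : Fin d → ℝ) (m : Fin r → Fin d → ℕ), Finite G ∧ (∀ j, (S j).Nonempty) ∧
      (∀ j, ∀ m ∈ S j, ∀ m' ∈ S j, (fun i => (m i : ℤ) - (m' i : ℤ)) ∈ dualG G) ∧
      (∀ w : Fin d → ℝ, (∀ i, 0 < w i) → (fun i => (w i : UnitAddCircle)) ∈ G →
        ε ≤ logDisc S (fun j => (a j : ℝ) / I0) w) ∧
      (∀ i, 0 < w i) ∧ (fun i => (w i : UnitAddCircle)) ∈ G ∧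
        logDisc S (fun j => (a j : ℝ) / I0) w = ε ∧ (∀ j, m j ∈ S j) ∧
      (fun i => ((k.factorial : ℕ) : ℤ) * ((I0 : ℤ) - ∑ j, (a j : ℤ) * (m j i : ℤ))) ∉
        dualG G := by
    intro k
    by_contra hk
    apply hcon
    refine ⟨k.factorial, Nat.factorial_pos k, fun G S hG hS hd hl ⟨w, hw1, hw2, hw3⟩ m hm => ?_⟩
    by_contra hx
    exact hk ⟨G, S, w, m, hG, hS, hd, hl, hw1, hw2, hw3, hm, hx⟩
  choose G S w m hG hS hd hl hw1 hw2 hw3 hm hx using H
  set c : Fin r → ℝ := fun j => (a j : ℝ) / I0 with hcdef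
  have hI0' : (0 : ℝ) < I0 := by exact_mod_cast hI0
  have hc : ∀ j, 0 < c j := fun j => div_pos (by exact_mod_cast ha j) hI0'
  obtain ⟨θ1, h1, h1'⟩ := subseq_mono S
  obtain ⟨θ2, h2, Q, hQ⟩ := subseq_pred
    (fun (l : ℕ) (x : (Fin d → ℤ) ⊕ (Fin r × (Fin d → ℕ))) =>
      Sum.elim (fun x => x ∈ dualG (G (θ1 l))) (fun y => y.2 ∈ S (θ1 l) y.1) x)
  have hQ1 : ∀ x : Fin d → ℤ, ∀ᶠ l in atTop,
      (x ∈ dualG (G (θ1 (θ2 l))) ↔ Q (Sum.inl x)) := fun x => hQ (Sum.inl x)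
  have hQ2 : ∀ j (s : Fin d → ℕ), ∀ᶠ l in atTop,
      (s ∈ S (θ1 (θ2 l)) j ↔ Q (Sum.inr (j, s))) := fun j s => hQ (Sum.inr (j, s))
  let L : AddSubgroup (Fin d → ℤ) :=
    { carrier := {x | Q (Sum.inl x)}
      add_mem' := by
        intro a b ha hb
        obtain ⟨l, h1, h2, h3⟩ := ((hQ1 a).and ((hQ1 b).and (hQ1 (a + b)))).exists
        exact h3.1 (add_mem (h1.2 ha) (h2.2 hb))
      zero_mem' := by
        obtain ⟨l, h1⟩ := (hQ1 0).exists
        exact h1.1 (zero_mem _)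
      neg_mem' := by
        intro a ha
        obtain ⟨l, h1, h2⟩ := ((hQ1 a).and (hQ1 (-a))).exists
        exact h2.1 (neg_mem (h1.2 ha)) }
  have hfg : ∃ s : Finset (Fin d → ℤ), AddSubgroup.closure (s : Set (Fin d → ℤ)) = L := by
    have h1 : (AddSubgroup.toIntSubmodule L).FG := IsNoetherian.noetherian _
    obtain ⟨s, hs⟩ := h1
    refine ⟨s, ?_⟩
    have h2 := congrArg Submodule.toAddSubgroup hs
    rw [Submodule.span_int_eq_addSubgroupClosure] at h2
    simpa using h2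
  obtain ⟨s, hs⟩ := hfg
  have h0 : ∀ᶠ l in atTop, ∀ x ∈ s, x ∈ dualG (G (θ1 (θ2 l))) := by
    rw [Filter.eventually_all_finset]
    intro x hx
    have hmL : x ∈ L := hs ▸ AddSubgroup.subset_closure hx
    filter_upwards [hQ1 x] with l hl
    exact hl.2 hmL
  obtain ⟨l0, hl0⟩ := eventually_atTop.1 h0
  have hle : ∀ l ≥ l0, L ≤ dualG (G (θ1 (θ2 l))) := by
    intro l hl
    rw [← hs, AddSubgroup.closure_le]
    intro x hx
    exact hl0 l hl x hx
  obtain ⟨p, hp1, hp2⟩ := Comb.core c hc ε hε (fun l => G (θ1 (θ2 l))) (fun l => S (θ1 (θ2 l)))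
    (fun l => hG _) (fun l j => hS _ j) (fun l j => hd _ j) (fun l => hl _) L hQ1
    (fun j => {s | Q (Sum.inr (j, s))}) hQ2 l0
    (fun j m hm => h2.tendsto_atTop.eventually (h1' (θ2 l0) j m hm)) (hle l0 le_rfl)
    (w (θ1 (θ2 l0))) (hw1 _) (hw2 _) (hw3 _)
  set κ : Fin d → ℤ := fun i => (I0 : ℤ) - ∑ j, (a j : ℤ) * (p j i : ℤ) with hκ
  have hκη : ∀ η : Fin d → ℤ, ((∑ i, κ i * η i : ℤ) : ℝ) =
      I0 * ∑ i, (1 - ∑ j, c j * (p j i : ℝ)) * (η i : ℝ) := by
    intro η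
    push_cast
    rw [Finset.mul_sum]
    refine Finset.sum_congr rfl fun i _ => ?_
    rw [← mul_assoc]
    congr 1
    rw [hκ]
    push_cast
    rw [mul_sub, mul_one, Finset.mul_sum]
    congr 1
    refine Finset.sum_congr rfl fun j _ => ?_
    rw [hcdef]
    field_simp
  obtain ⟨K, hK0, hK⟩ := Comb.dual L κ (by
    intro η hη
    have e1 := hp2 η hη
    have e2 := hp2 (-η) (by
      intro x hx
      have := hη x hx
      simp only [Pi.neg_apply, mul_neg, Finset.sum_neg_distrib, this, neg_zero])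
    simp only [Pi.neg_apply, Int.cast_neg, mul_neg, Finset.sum_neg_distrib] at e2
    have e3 : ∑ i, (1 - ∑ j, c j * (p j i : ℝ)) * (η i : ℝ) = 0 := by linarith
    have e4 := hκη η
    rw [e3, mul_zero] at e4
    exact_mod_cast e4)
  -- the contradiction
  have hev : ∀ᶠ l in atTop, ∀ j, p j ∈ S (θ1 (θ2 l)) j := by
    rw [Filter.eventually_all]
    intro j
    filter_upwards [hQ2 j (p j)] with l hl
    exact hl.2 (hp1 j)
  obtain ⟨l, g1, g2, g3⟩ := (hev.and ((eventually_ge_atTop l0).and (eventually_ge_atTop K))).exists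
  set q : ℕ := θ1 (θ2 l) with hq
  have hqK : K ≤ q := g3.trans ((h2.le_apply).trans h1.le_apply)
  obtain ⟨t, ht⟩ := Nat.dvd_factorial hK0 hqK
  apply hx q
  have k1 : (fun i => (K : ℤ) * κ i) ∈ dualG (G q) := hle l g2 hK
  have k2 : ∀ j, (fun i => (p j i : ℤ) - (m q j i : ℤ)) ∈ dualG (G q) := fun j =>
    hd q j (p j) (g1 j) (m q j) (hm q j)
  have k3 : (∑ j, (a j : ℤ) • (fun i => (p j i : ℤ) - (m q j i : ℤ) : Fin d → ℤ)) ∈ dualG (G q) :=
    sum_mem fun j _ => AddSubgroup.zsmul_mem _ (k2 j) _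
  have k4 : (fun i => ((q.factorial : ℕ) : ℤ) * ((I0 : ℤ) - ∑ j, (a j : ℤ) * (m q j i : ℤ))) =
      (t : ℤ) • (fun i => (K : ℤ) * κ i : Fin d → ℤ) + ((q.factorial : ℕ) : ℤ) •
        (∑ j, (a j : ℤ) • (fun i => (p j i : ℤ) - (m q j i : ℤ) : Fin d → ℤ)) := by
    funext i
    simp only [Pi.add_apply, Pi.smul_apply, Finset.sum_apply, smul_eq_mul, hκ]
    rw [ht]
    push_cast
    simp only [mul_sub, Finset.sum_sub_distrib, Finset.mul_sum]
    ring_nf
  rw [k4]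
  exact add_mem (AddSubgroup.zsmul_mem _ k1 _) (AddSubgroup.zsmul_mem _ k3 _)

end Pool.Agent.TH165.IDX
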