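import Mathlib
import Pool.Agent.TH165.IDX.Comb2
import Pool.Agent.TH165.IDX.Key2
import Pool.Agent.TH165.IDX.Cart

/-!
# Bounded Cartier indices for simplicial toric germs with non-toric boundaries
-/

set_option autoImplicit false
set_option linter.unusedSectionVars false

namespace Pool.Agent.TH165.IDX

open Pool.Agent.H436R3.Fol Pool.Agent.H436R3.KT Pool.Agent.W497.Mld Pool.Agent.TH165.ACC
  Pool.Agent.TH165.LSC Pool.Agent.TH165.IDX2 MvPolynomial

variable {n : ℕ} {K : Type} [Field K] [Algebra ℂ K]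
  [Algebra (MvPolynomial (Fin n) ℂ) K] [IsFractionRing (MvPolynomial (Fin n) ℂ) K]
  [IsScalarTower ℂ (MvPolynomial (Fin n) ℂ) K]

/-- the cone is simplicial: the edge vectors are linearly independent -/
def IsSimplicial (g : ToricGerm n K) : Prop :=
  LinearIndependent ℚ fun (i : Fin g.N) (k : Fin n) => (g.E i k : ℚ)

theorem geo_index {Γ : Set ℝ} {I0 A : ℕ} (hI0 : 0 < I0)
    (hΓ : ∀ x ∈ Γ, ∃ a : ℕ, a ≤ A ∧ (I0 : ℝ) * x = a) {ε : ℝ} (hε : 0 ≤ ε) :
    ∃ I : ℕ, 0 < I ∧ ∀ (g : ToricGerm n K) (B : EffDiv g.X) (e : LocEq B g.P),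
      IsSimplicial g → CoeffIn B Γ → Pool.Agent.W497.Mld.IsMld e ε →
      (Computed e ε ∨ NondegBoundary g B) → CartierAt B g.P I := by
  classical
  let J : ∀ (d r : ℕ), (Fin r → Fin (A + 1)) → ℕ := fun d r a =>
    if h : ∀ j, 0 < (a j : ℕ) then (comb (d := d) I0 hI0 (fun j => (a j : ℕ)) h ε hε).choose else 1
  have hJ : ∀ d r a, 0 < J d r a := by
    intro d r a
    simp only [J]
    split_ifs with h
    · exact (comb (d := d) I0 hI0 (fun j => (a j : ℕ)) h ε hε).choose_spec.1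
    · exact one_pos
  let It : ℕ := ∏ d ∈ Finset.range (n + 1), ∏ r ∈ Finset.range (n * I0 + 1),
    ∏ a : Fin r → Fin (A + 1), J d r a
  refine ⟨It * I0, Nat.mul_pos (Finset.prod_pos fun d _ => Finset.prod_pos fun r _ =>
    Finset.prod_pos fun a _ => hJ d r a) hI0, fun g B e hsimp hB hm hcn => ?_⟩
  have hcomp : Computed e ε := hcn.elim id fun h => computed_of_nondeg hε hm h
  obtain ⟨v0, hov0, hv0, hl⟩ := hcomp
  have hn := pos_of_mon hv0
  have hint0 := ToricGerm.inter_of_over (n := n) hov0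
  obtain ⟨D, hD⟩ := exists_dual hsimp
  obtain ⟨hD0, hDQ⟩ := id hD
  choose Q hQ using hDQ
  have hc0 := simp_coord hD0 hQ (tv v0)
  have hw0 := simp_pos hD0 hQ hint0
  obtain ⟨F, c, hFp, hFd, hc⟩ := fact (n := n) e.ρ e.g e.ne
  obtain ⟨r, S, c2, hS, hkey, hdiff, m, t, hm1, hm2⟩ := key2 e hB (a := id) hFp hFd hc
  have hNn : g.N ≤ n := by
    have h1 := (indep_E hD0 hQ).fintype_card_le_finrank
    simpa using h1
  -- lower bound
  have hmin : ∀ w : Fin g.N → ℝ, (∀ i, 0 < w i) →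
      (fun i => (w i : UnitAddCircle)) ∈ GE g.E → ε ≤ logDisc S c2 w := by
    intro w hw hwG
    obtain ⟨k, v, hk, hv, hov, hpos, hcv⟩ := exists_val (a := id) hn hc0 hint0 hw hwG
    have hk' : (0 : ℝ) < k := by exact_mod_cast hk
    have hk1 : (1 : ℝ) ≤ k := by exact_mod_cast hk
    have h1 : ε ≤ logDisc S c2 ((k : ℝ)⁻¹ • w) :=
      hm.2 ⟨v, hov, (logDisc_mon hv).2 (hkey v hv _ (fun i => (hpos i).le) hcv)⟩
    have h2 : logDisc S c2 w = k * logDisc S c2 ((k : ℝ)⁻¹ • w) := by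
      rw [← logDisc_smul _ _ hk'.le, smul_smul, mul_inv_cancel₀ hk'.ne', one_smul]
    rw [h2]
    nlinarith
  have hatt : logDisc S c2 (fun i => (pr (Q i) (tv v0) : ℝ) / D) = ε := by
    rw [hkey v0 hv0 _ (fun i => (hw0 i).le) hc0]
    exact ((logDisc_mon hv0).1 hl).symm
  -- coefficients
  choose a0 ha0 using fun j => hΓ _ (hS j).2.2.1
  have hI0' : (0 : ℝ) < I0 := by exact_mod_cast hI0
  have hpos : ∀ j, 0 < a0 j := by
    intro j
    have h1 : (0 : ℝ) < a0 j := by
      rw [← (ha0 j).2]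
      exact mul_pos hI0' (hS j).2.2.2
    exact_mod_cast h1
  have hc2 : c2 = fun j => (a0 j : ℝ) / I0 := by
    funext j
    rw [← (ha0 j).2]
    field_simp
  have hr : r ≤ n * I0 := by
    have h1 : ε ≤ logDisc S c2 (fun _ => 1) := by
      apply hmin _ fun _ => one_pos
      have : (fun _ : Fin g.N => ((1 : ℝ) : UnitAddCircle)) = 0 := by
        funext i
        exact AddCircle.coe_period 1
      rw [this]
      exact zero_mem _
    have h2 : ∀ j, 1 ≤ ordAlong (S j) (fun _ => (1 : ℝ)) := by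
      intro j
      apply le_ord (hS j).1
      intro m hm
      have hm0 : m ≠ 0 := fun h => (hS j).2.1 (h ▸ hm)
      obtain ⟨i, hi⟩ := Function.ne_iff.1 hm0
      calc (1 : ℝ) ≤ (m i : ℝ) * 1 := by
            rw [mul_one]
            exact_mod_cast Nat.one_le_iff_ne_zero.2 hi
        _ ≤ ∑ i, (m i : ℝ) * 1 := Finset.single_le_sum (f := fun i => (m i : ℝ) * 1)
            (fun i _ => by positivity) (Finset.mem_univ i)
    have h3 : (r : ℝ) * (1 / I0) ≤ ∑ j, c2 j * ordAlong (S j) (fun _ => (1 : ℝ)) := by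
      calc (r : ℝ) * (1 / I0) = ∑ _j : Fin r, (1 / I0 : ℝ) := by
            rw [Finset.sum_const, Finset.card_univ, Fintype.card_fin, nsmul_eq_mul]
        _ ≤ _ := Finset.sum_le_sum fun j _ => by
            have e1 : (1 / I0 : ℝ) ≤ c2 j := by
              rw [hc2]
              have : (1 : ℝ) ≤ a0 j := by exact_mod_cast hpos j
              exact div_le_div_of_nonneg_right this hI0'.le
            have e2 := h2 j
            have e3 := (hS j).2.2.2
            nlinarith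
    have h4 : logDisc S c2 (fun _ => (1 : ℝ)) =
        g.N - ∑ j, c2 j * ordAlong (S j) (fun _ => (1 : ℝ)) := by
      rw [logDisc, Finset.sum_const, Finset.card_univ, Fintype.card_fin, nsmul_eq_mul, mul_one]
    have h5 : (r : ℝ) * (1 / I0) ≤ n := by
      have : (g.N : ℝ) ≤ n := by exact_mod_cast hNn
      rw [h4] at h1
      linarith
    rw [mul_one_div, div_le_iff₀ hI0'] at h5
    exact_mod_cast h5
  -- the combinatorial theorem
  let a1 : Fin r → Fin (A + 1) := fun j => ⟨a0 j, Nat.lt_succ_of_le (ha0 j).1⟩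
  have ha1 : ∀ j, 0 < (a1 j : ℕ) := hpos
  have hJeq : J g.N r a1 =
      (comb (d := g.N) I0 hI0 (fun j => (a1 j : ℕ)) ha1 ε hε).choose := dif_pos ha1
  have hspec := (comb (d := g.N) I0 hI0 (fun j => (a1 j : ℕ)) ha1 ε hε).choose_spec.2
  rw [← hJeq] at hspec
  have hdual := hspec (GE g.E) S (GE_finite hD) (fun j => (hS j).1)
    (fun j m hm m' hm' => by
      obtain ⟨δ, hδ⟩ := hdiff j m hm m' hm'
      have h1 : (fun i => (m i : ℤ) - (m' i : ℤ)) = fun i => pr δ (g.E i) := funext hδ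
      rw [h1]
      exact pr_mem_dualG δ)
    (by
      have h1 : (fun j => ((a1 j : ℕ) : ℝ) / I0) = c2 := hc2.symm
      rw [h1]
      exact hmin)
    ⟨fun i => (pr (Q i) (tv v0) : ℝ) / D, hw0, ⟨_, _, rfl, hc0⟩, by
      have h1 : (fun j => ((a1 j : ℕ) : ℝ) / I0) = c2 := hc2.symm
      rw [h1]
      exact hatt⟩ m hm1
  -- the coefficients of the components through `P` which meet the torus
  have hThrΓ : ∀ p ∈ F, Thr g p → c p = 0 ∨ c p ∈ Γ := by
    rintro p hp ⟨hpp, hcv, hon⟩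
    obtain ⟨b, hb, h3⟩ := e.eq _ hon
    have hL := g.local_prime hpp hcv
    have h4 : b = 0 := hb.unique (can_unit g.e g.hT (by rw [← g.hR]; exact hL) hcv)
    have h5 : ∑ q ∈ F, c q * ((valP K p hpp).ord (jo (Fin n) K q) : ℝ) = c p := by
      rw [Finset.sum_eq_single p]
      · rw [valP_self]; push_cast; ring
      · intro q hq hqp
        rw [valP_other hpp (hFp q hq).ne_zero fun h => hqp (hFd p hp q hq h).symm]
        push_cast; ring
      · intro h; exact absurd hp h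
    rw [hc, h5, h4, Int.cast_zero, zero_add] at h3
    by_cases h6 : c p = 0
    · exact Or.inl h6
    · right
      rw [← h3]
      rw [← h3] at h6
      exact hB _ hL h6
  have hb : ∀ p, ∃ b : ℤ, p ∈ F → Thr g p → (I0 : ℝ) * c p = b := by
    intro p
    by_cases h : p ∈ F ∧ Thr g p
    · rcases hThrΓ p h.1 h.2 with h1 | h1
      · exact ⟨0, fun _ _ => by rw [h1]; simp⟩
      · obtain ⟨x, -, hx⟩ := hΓ _ h1
        exact ⟨x, fun _ _ => by rw [hx]; simp⟩
    · exact ⟨0, fun h1 h2 => absurd ⟨h1, h2⟩ h⟩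
  choose b hb using hb
  have hstep : CartierAt B g.P (J g.N r a1 * I0) := by
    refine index_step e hFp hc hD0 hQ b hb t
      (fun i => (I0 : ℤ) - ∑ j, ((a1 j : ℕ) : ℤ) * (m j i : ℤ)) (fun i => ?_) hdual
    have h1 := hm2 i
    have h2 : (((I0 : ℤ) - ∑ j, ((a1 j : ℕ) : ℤ) * (m j i : ℤ) : ℤ) : ℝ) =
        I0 * (1 - ∑ j, c2 j * (m j i : ℝ)) := by
      push_cast
      rw [mul_sub, mul_one, Finset.mul_sum]
      congr 1
      refine Finset.sum_congr rfl fun j _ => ?_
      rw [← mul_assoc, (ha0 j).2]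
    rw [h2, h1]
    rfl
  have hdvd : J g.N r a1 ∣ It := by
    refine (Finset.dvd_prod_of_mem (fun a => J g.N r a) (Finset.mem_univ a1)).trans ?_
    refine (Finset.dvd_prod_of_mem (fun r => ∏ a : Fin r → Fin (A + 1), J g.N r a)
      (Finset.mem_range.2 (Nat.lt_succ_of_le hr))).trans ?_
    exact Finset.dvd_prod_of_mem (fun d => ∏ r ∈ Finset.range (n * I0 + 1),
      ∏ a : Fin r → Fin (A + 1), J d r a) (Finset.mem_range.2 (Nat.lt_succ_of_le hNn))
  obtain ⟨k, hk⟩ := hdvd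
  have h1 : It * I0 = k * (J g.N r a1 * I0) := by rw [hk]; ring
  rw [h1]
  exact hstep.mul k

end Pool.Agent.TH165.IDX
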